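import Mathlib

set_option autoImplicit false
set_option linter.unusedSectionVars false
set_option linter.unusedSimpArgs false
set_option linter.unusedVariables false

namespace Pool.Agent.H47.RR

open Polynomial

/-- the diagonal operator with symbol `l` -/
noncomputable def dg (l : ℕ → ℝ) (p : ℝ[X]) : ℝ[X] := p.sum fun k a => monomial k (l k * a)

theorem coeff_dg (l : ℕ → ℝ) (p : ℝ[X]) (k : ℕ) : (dg l p).coeff k = l k * p.coeff k := by
  unfold dg Polynomial.sum
  rw [finsetSum_coeff]
  simp only [coeff_monomial]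
  by_cases h : k ∈ p.support
  · rw [Finset.sum_eq_single k]
    · simp
    · intro b _ hb; simp [hb]
    · intro h'; exact absurd h h'
  · rw [Finset.sum_eq_zero]
    · rw [notMem_support_iff] at h; simp [h]
    · intro b hb
      have : b ≠ k := fun h' => h (h' ▸ hb)
      simp [this]

theorem dg_add (l : ℕ → ℝ) (p q : ℝ[X]) : dg l (p + q) = dg l p + dg l q := by
  ext k; simp only [coeff_dg, coeff_add]; ring

theorem dg_sub (l : ℕ → ℝ) (p q : ℝ[X]) : dg l (p - q) = dg l p - dg l q := by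
  ext k; simp only [coeff_dg, coeff_sub]; ring

theorem dg_C_mul (l : ℕ → ℝ) (c : ℝ) (p : ℝ[X]) : dg l (C c * p) = C c * dg l p := by
  ext k; simp only [coeff_dg, coeff_C_mul]; ring

theorem dg_neg (l : ℕ → ℝ) (p : ℝ[X]) : dg l (-p) = - dg l p := by
  ext k; simp only [coeff_dg, coeff_neg]; ring

theorem dg_zero (l : ℕ → ℝ) : dg l 0 = 0 := by
  ext k; simp only [coeff_dg, coeff_zero, mul_zero]

theorem dg_X_mul (l : ℕ → ℝ) (p : ℝ[X]) : dg l (X * p) = X * dg (fun k => l (k + 1)) p := by
  ext k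
  cases k with
  | zero => simp [coeff_dg]
  | succ k => simp [coeff_dg, coeff_X_mul]

theorem dg_X_pow_mul (l : ℕ → ℝ) (n : ℕ) (p : ℝ[X]) :
    dg l (X ^ n * p) = X ^ n * dg (fun k => l (k + n)) p := by
  ext k
  rw [coeff_dg, coeff_X_pow_mul', coeff_X_pow_mul']
  split_ifs with h
  · rw [coeff_dg, Nat.sub_add_cancel h]
  · simp

theorem derivative_dg (l : ℕ → ℝ) (p : ℝ[X]) :
    derivative (dg l p) = dg (fun k => l (k + 1)) (derivative p) := by
  ext k
  simp only [coeff_derivative, coeff_dg]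
  ring

theorem dg_comp (l : ℕ → ℝ) (c : ℝ) (p : ℝ[X]) :
    (dg l p).comp (C c * X) = dg l (p.comp (C c * X)) := by
  ext k
  simp only [comp_C_mul_X_coeff, coeff_dg]
  ring

theorem dg_X_derivative (l : ℕ → ℝ) (p : ℝ[X]) :
    dg l (X * derivative p) = X * derivative (dg l p) := by
  rw [dg_X_mul, derivative_dg]

theorem natDegree_dg_le (l : ℕ → ℝ) (p : ℝ[X]) : (dg l p).natDegree ≤ p.natDegree := by
  rw [natDegree_le_iff_coeff_eq_zero]
  intro N hN
  rw [coeff_dg, coeff_eq_zero_of_natDegree_lt hN, mul_zero]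

theorem dg_congr {l l' : ℕ → ℝ} {p : ℝ[X]} (h : ∀ k, p.coeff k ≠ 0 → l k = l' k) :
    dg l p = dg l' p := by
  ext k
  rw [coeff_dg, coeff_dg]
  by_cases hk : p.coeff k = 0
  · rw [hk]; simp
  · rw [h k hk]

/-! ### Laguerre inequality -/

/-- the Laguerre expression -/
noncomputable def Lag (p : ℝ[X]) (x : ℝ) : ℝ :=
  (p.derivative.eval x) ^ 2 - p.eval x * p.derivative.derivative.eval x

theorem Lag_mul_X_sub_C (a : ℝ) (p : ℝ[X]) (x : ℝ) :
    Lag ((X - C a) * p) x = (p.eval x) ^ 2 + (x - a) ^ 2 * Lag p x := by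
  unfold Lag
  simp only [derivative_mul, derivative_sub, derivative_X, derivative_C, sub_zero, one_mul,
    derivative_add, eval_add, eval_mul, eval_sub, eval_X, eval_C]
  ring

theorem Lag_prod (c : ℝ) (m : Multiset ℝ) (x : ℝ) :
    0 ≤ Lag (C c * (m.map fun a => X - C a).prod) x := by
  induction m using Multiset.induction with
  | empty => simp [Lag]
  | cons a m ih =>
    rw [Multiset.map_cons, Multiset.prod_cons, mul_left_comm, Lag_mul_X_sub_C]
    positivity

theorem laguerre {p : ℝ[X]} (hp : p.Splits) (x : ℝ) : 0 ≤ Lag p x := by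
  obtain ⟨m, hm⟩ := splits_iff_exists_multiset.1 hp
  rw [hm]
  exact Lag_prod _ _ _

theorem laguerre_strict {p : ℝ[X]} (hp : p.Splits) (hd : p.natDegree ≠ 0) {x : ℝ}
    (hx : p.eval x ≠ 0) : 0 < Lag p x := by
  have hp0 : p ≠ 0 := by rintro rfl; simp at hd
  have hr : p.roots ≠ 0 := hp.roots_ne_zero hd
  obtain ⟨a, ha⟩ := Multiset.exists_mem_of_ne_zero hr
  have hroot : p.IsRoot a := isRoot_of_mem_roots ha
  obtain ⟨q, hq⟩ := dvd_iff_isRoot.2 hroot
  have hq0 : q.Splits := by
    rw [hq] at hp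
    exact splits_X_sub_C_mul_iff.1 hp
  rw [hq] at hx ⊢
  rw [Lag_mul_X_sub_C]
  have h1 : q.eval x ≠ 0 := by
    intro h
    apply hx
    rw [eval_mul, h, mul_zero]
  have h2 := laguerre hq0 x
  positivity

/-- derivatives of real-rooted polynomials are real-rooted -/
theorem splits_derivative {p : ℝ[X]} (hp : p.Splits) : p.derivative.Splits := by
  by_cases hd : p.natDegree = 0
  · have : p = C (p.coeff 0) := eq_C_of_natDegree_eq_zero hd
    rw [this, derivative_C]
    exact Splits.zero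
  · rw [splits_iff_card_roots]
    have h1 := card_roots_le_derivative p
    have h2 : p.roots.card = p.natDegree := splits_iff_card_roots.1 hp
    have h3 : p.derivative.natDegree ≤ p.natDegree - 1 := natDegree_derivative_le p
    have h4 := card_roots' p.derivative
    omega

/-- multiple roots of the derivative are roots -/
theorem root_of_double {p : ℝ[X]} (hp : p.Splits) (hd : p.natDegree ≠ 0) {x : ℝ}
    (h1 : p.derivative.eval x = 0) (h2 : p.derivative.derivative.eval x = 0) : p.eval x = 0 := by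
  by_contra h
  have := laguerre_strict hp hd h
  unfold Lag at this
  rw [h1, h2] at this
  simp at this

/-! ### complex characterization and closedness -/

theorem splits_iff_im {p : ℝ[X]} :
    p.Splits ↔ (p = 0 ∨ ∀ z : ℂ, aeval z p = 0 → z.im = 0) := by
  constructor
  · intro hp
    by_cases h0 : p = 0
    · exact Or.inl h0
    · right
      intro z hz
      obtain ⟨m, hm⟩ := splits_iff_exists_multiset.1 hp
      rw [hm] at hz
      rw [map_mul, aeval_C, map_multiset_prod, Multiset.map_map] at hz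
      rcases mul_eq_zero.1 hz with h | h
      · exfalso
        apply h0
        rw [← leadingCoeff_eq_zero]
        simpa using h
      · rw [Multiset.prod_eq_zero_iff, Multiset.mem_map] at h
        obtain ⟨a, -, ha⟩ := h
        simp only [Function.comp, map_sub, aeval_X, aeval_C] at ha
        have : z = ((a : ℝ) : ℂ) := sub_eq_zero.1 ha
        rw [this]; simp
  · rintro (h | h)
    · rw [h]; exact Splits.zero
    · apply Splits.of_splits_map (algebraMap ℝ ℂ) (IsAlgClosed.splits _)
      intro a ha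
      have h1 : (p.map (algebraMap ℝ ℂ)).IsRoot a := isRoot_of_mem_roots ha
      have h2 : aeval a p = 0 := by
        rw [IsRoot.def, eval_map_algebraMap] at h1; exact h1
      have h3 := h a h2
      exact ⟨a.re, Complex.ext (by simp) (by simp [h3])⟩

theorem norm_factor {z w : ℂ} (hz : z.im ≠ 0) (a : ℝ) :
    ‖w - a‖ ≤ ‖z - a‖ * (1 + ‖w - z‖ / |z.im|) := by
  have h1 : |z.im| ≤ ‖z - a‖ := by
    have := Complex.abs_im_le_norm (z - a)
    simpa using this
  have h2 : 0 < |z.im| := abs_pos.2 hz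
  have h3 : ‖w - a‖ ≤ ‖z - a‖ + ‖w - z‖ := by
    have : w - a = (z - a) + (w - z) := by ring
    rw [this]; exact norm_add_le _ _
  have h4 : ‖w - z‖ ≤ ‖z - a‖ * (‖w - z‖ / |z.im|) := by
    rw [mul_div_assoc', le_div_iff₀ h2, mul_comm]
    exact mul_le_mul_of_nonneg_right h1 (norm_nonneg _)
  calc ‖w - a‖ ≤ ‖z - a‖ + ‖w - z‖ := h3
    _ ≤ ‖z - a‖ + ‖z - a‖ * (‖w - z‖ / |z.im|) := by linarith
    _ = _ := by ring

theorem harnack {p : ℝ[X]} (hp : p.Splits) {d : ℕ} (hd : p.natDegree ≤ d) {z w : ℂ}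
    (hz : z.im ≠ 0) : ‖aeval w p‖ ≤ ‖aeval z p‖ * (1 + ‖w - z‖ / |z.im|) ^ d := by
  have hB : 1 ≤ 1 + ‖w - z‖ / |z.im| := by
    have : 0 ≤ ‖w - z‖ / |z.im| := by positivity
    linarith
  have hcard : p.roots.card ≤ d := (card_roots' p).trans hd
  have key : ∀ (c : ℝ) (m : Multiset ℝ), ‖aeval w (C c * (m.map fun a => X - C a).prod)‖ ≤
      ‖aeval z (C c * (m.map fun a => X - C a).prod)‖ * (1 + ‖w - z‖ / |z.im|) ^ m.card := by
    intro c m
    induction m using Multiset.induction with
    | empty => simp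
    | cons a m ih =>
      rw [Multiset.map_cons, Multiset.prod_cons, mul_left_comm, Multiset.card_cons, pow_succ]
      rw [map_mul (aeval w) (X - C a) _, map_mul (aeval z) (X - C a) _, norm_mul, norm_mul]
      have h1 : aeval w (X - C a : ℝ[X]) = w - a := by simp
      have h2 : aeval z (X - C a : ℝ[X]) = z - a := by simp
      rw [h1, h2]
      have h3 := norm_factor (w := w) hz a
      calc ‖w - a‖ * ‖aeval w (C c * (m.map fun a => X - C a).prod)‖
          ≤ (‖z - a‖ * (1 + ‖w - z‖ / |z.im|)) *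
            (‖aeval z (C c * (m.map fun a => X - C a).prod)‖ *
              (1 + ‖w - z‖ / |z.im|) ^ m.card) := by gcongr
        _ = _ := by ring
  have h1 := key p.leadingCoeff p.roots
  rw [← hp.eq_prod_roots] at h1
  refine h1.trans ?_
  gcongr

theorem splits_of_harnack {p : ℝ[X]} {d : ℕ}
    (h : ∀ z w : ℂ, z.im ≠ 0 → ‖aeval w p‖ ≤ ‖aeval z p‖ * (1 + ‖w - z‖ / |z.im|) ^ d) :
    p.Splits := by
  rw [splits_iff_im]
  by_contra hcon
  push Not at hcon
  obtain ⟨h0, z, hz, him⟩ := hcon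
  apply h0
  apply Polynomial.funext
  intro x
  have h1 := h z x him
  rw [hz, norm_zero, zero_mul] at h1
  have h2 : aeval (x : ℂ) p = 0 := norm_le_zero_iff.1 h1
  have h3 : ((p.eval x : ℝ) : ℂ) = aeval (x : ℂ) p := by
    rw [← Complex.coe_algebraMap, ← aeval_algebraMap_apply_eq_algebraMap_eval]
  rw [h2] at h3
  rw [eval_zero]
  exact_mod_cast h3

open Filter Topology

theorem tendsto_aeval {ι : Type*} {F : Filter ι} {P : ι → ℝ[X]} {p : ℝ[X]} {d : ℕ}
    (hP : ∀ i, (P i).natDegree ≤ d) (hp : p.natDegree ≤ d)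
    (h : ∀ k, Tendsto (fun i => (P i).coeff k) F (𝓝 (p.coeff k))) (z : ℂ) :
    Tendsto (fun i => aeval z (P i)) F (𝓝 (aeval z p)) := by
  have h1 : ∀ q : ℝ[X], q.natDegree ≤ d →
      aeval z q = ∑ k ∈ Finset.range (d + 1), q.coeff k • z ^ k := fun q hq =>
    aeval_eq_sum_range' (Nat.lt_succ_of_le hq) z
  rw [h1 p hp]
  simp_rw [fun i => h1 (P i) (hP i)]
  apply tendsto_finsetSum
  intro k _
  exact (h k).smul_const _

/-- limits of real-rooted polynomials of bounded degree are real-rooted -/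
theorem splits_of_tendsto {ι : Type*} {F : Filter ι} [F.NeBot] {P : ι → ℝ[X]} {p : ℝ[X]} {d : ℕ}
    (hP : ∀ i, (P i).natDegree ≤ d) (hp : p.natDegree ≤ d)
    (h : ∀ k, Tendsto (fun i => (P i).coeff k) F (𝓝 (p.coeff k)))
    (hS : ∀ᶠ i in F, (P i).Splits) : p.Splits := by
  apply splits_of_harnack (d := d)
  intro z w hz
  have h1 := (tendsto_aeval hP hp h w).norm
  have h2 := ((tendsto_aeval hP hp h z).norm).mul_const ((1 + ‖w - z‖ / |z.im|) ^ d)
  apply le_of_tendsto_of_tendsto h1 h2
  filter_upwards [hS] with i hi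
  exact harnack hi (hP i) hz

end Pool.Agent.H47.RR
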