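import Mathlib
import Pool.Agent.H47.RR.Basic

set_option autoImplicit false
set_option linter.unusedSectionVars false
set_option linter.unusedSimpArgs false
set_option linter.unusedVariables false

namespace Pool.Agent.H47.RR

open Polynomial Set Filter Topology ComplexConjugate

/-- degree at most `d`, with vanishing coefficients on `Z` -/
def InW (d : ℕ) (Z : Set ℕ) (p : ℝ[X]) : Prop := p.natDegree ≤ d ∧ ∀ k ∈ Z, p.coeff k = 0

/-- preservation of real-rootedness -/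
def Pres (d : ℕ) (Z : Set ℕ) (l : ℕ → ℝ) : Prop :=
  ∀ p : ℝ[X], InW d Z p → p.Splits → (dg l p).Splits

/-- strict preservation -/
def Str (d : ℕ) (Z : Set ℕ) (l : ℕ → ℝ) : Prop :=
  ∀ p : ℝ[X], InW d Z p → p ≠ 0 → p.Splits → dg l p ≠ 0 ∧ (dg l p).Splits ∧
    ∀ τ : ℝ, τ ≠ 0 → (dg l p).eval τ = 0 → (dg l p).derivative.eval τ ≠ 0

theorem Str.pres {d : ℕ} {Z : Set ℕ} {l : ℕ → ℝ} (h : Str d Z l) : Pres d Z l := by
  intro p hp hs
  by_cases h0 : p = 0
  · rw [h0, dg_zero]; exact Splits.zero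
  · exact (h p hp h0 hs).2.1

/-- the divided difference at `z`, `conj z` -/
noncomputable def Gp (d : ℕ) (f : ℝ[X]) (z : ℂ) : ℂ :=
  ∑ k ∈ Finset.range (d + 1), (f.coeff k : ℂ) * ∑ i ∈ Finset.range k, z ^ i * (conj z) ^ (k - 1 - i)

theorem aeval_eq {d : ℕ} {f : ℝ[X]} (hf : f.natDegree ≤ d) (z : ℂ) :
    aeval z f = ∑ k ∈ Finset.range (d + 1), (f.coeff k : ℂ) * z ^ k := by
  rw [aeval_eq_sum_range' (Nat.lt_succ_of_le hf) z]
  simp only [Complex.real_smul]

theorem aeval_conj' (f : ℝ[X]) (z : ℂ) : aeval (conj z) f = conj (aeval z f) := by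
  rw [Polynomial.aeval_conj]

theorem Gp_mul {d : ℕ} {f : ℝ[X]} (hf : f.natDegree ≤ d) (z : ℂ) :
    Gp d f z * (z - conj z) = aeval z f - aeval (conj z) f := by
  rw [aeval_eq hf, aeval_eq hf]
  unfold Gp
  rw [Finset.sum_mul, ← Finset.sum_sub_distrib]
  apply Finset.sum_congr rfl
  intro k _
  rw [mul_assoc, geom_sum₂_mul]
  ring

theorem Gp_nonreal {d : ℕ} {f : ℝ[X]} (hf : f.natDegree ≤ d) {z : ℂ} (hz : z.im ≠ 0)
    (h : aeval z f = 0) : Gp d f z = 0 := by
  have h1 := Gp_mul hf z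
  rw [aeval_conj', h, map_zero, sub_zero] at h1
  rcases mul_eq_zero.1 h1 with h2 | h2
  · exact h2
  · exfalso
    apply hz
    have := congrArg Complex.im h2
    simp at this
    exact this

theorem Gp_real {d : ℕ} {f : ℝ[X]} (hf : f.natDegree ≤ d) (x : ℝ) :
    Gp d f (x : ℂ) = ((f.derivative.eval x : ℝ) : ℂ) := by
  rw [derivative_eval, sum_over_range' _ (by simp) (d + 1) (by omega)]
  unfold Gp
  push_cast
  apply Finset.sum_congr rfl
  intro k _
  rw [Complex.conj_ofReal]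
  have h1 : ∀ i ∈ Finset.range k, (x : ℂ) ^ i * (x : ℂ) ^ (k - 1 - i) = (x : ℂ) ^ (k - 1) := by
    intro i hi
    rw [← pow_add]
    congr 1
    have := Finset.mem_range.1 hi
    omega
  rw [Finset.sum_congr rfl h1, Finset.sum_const, Finset.card_range, nsmul_eq_mul]
  ring

theorem Gp_scale (d : ℕ) (f : ℝ[X]) (c : ℝ) (z : ℂ) :
    Gp d (f.comp (C c * X)) z = c * Gp d f (c * z) := by
  unfold Gp
  rw [Finset.mul_sum]
  apply Finset.sum_congr rfl
  intro k _
  rw [comp_C_mul_X_coeff, Finset.mul_sum, Finset.mul_sum, Finset.mul_sum]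
  apply Finset.sum_congr rfl
  intro i hi
  have hik := Finset.mem_range.1 hi
  rw [map_mul, Complex.conj_ofReal, mul_pow, mul_pow]
  have : (c : ℂ) ^ k = c * ((c : ℂ) ^ i * (c : ℂ) ^ (k - 1 - i)) := by
    rw [← pow_add, ← pow_succ']
    congr 1
    omega
  push_cast
  rw [this]
  ring

theorem Gp_C_mul (d : ℕ) (f : ℝ[X]) (c : ℝ) (z : ℂ) : Gp d (C c * f) z = c * Gp d f z := by
  unfold Gp
  rw [Finset.mul_sum]
  apply Finset.sum_congr rfl
  intro k _
  rw [coeff_C_mul]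
  push_cast
  ring

theorem aeval_scale (f : ℝ[X]) (c : ℝ) (z : ℂ) : aeval z (f.comp (C c * X)) = aeval (c * z) f := by
  rw [aeval_comp]
  simp

/-- the polynomial with given coefficients -/
noncomputable def pl {d : ℕ} (a : Fin (d + 1) → ℝ) : ℝ[X] := ∑ k : Fin (d + 1), monomial (k : ℕ) (a k)

theorem coeff_pl {d : ℕ} (a : Fin (d + 1) → ℝ) (j : ℕ) :
    (pl a).coeff j = if h : j < d + 1 then a ⟨j, h⟩ else 0 := by
  unfold pl
  rw [finsetSum_coeff]
  simp only [coeff_monomial]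
  split_ifs with h
  · rw [Finset.sum_eq_single ⟨j, h⟩]
    · simp
    · intro b _ hb
      have : (b : ℕ) ≠ j := fun h' => hb (Fin.ext h')
      simp [this]
    · intro h'; exact absurd (Finset.mem_univ _) h'
  · apply Finset.sum_eq_zero
    intro b _
    have : (b : ℕ) ≠ j := by have := b.2; omega
    simp [this]

theorem coeff_pl' {d : ℕ} (a : Fin (d + 1) → ℝ) (j : Fin (d + 1)) : (pl a).coeff j = a j := by
  rw [coeff_pl, dif_pos j.2]

theorem natDegree_pl {d : ℕ} (a : Fin (d + 1) → ℝ) : (pl a).natDegree ≤ d := by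
  rw [natDegree_le_iff_coeff_eq_zero]
  intro N hN
  rw [coeff_pl, dif_neg (by omega)]

theorem pl_coeff {d : ℕ} {p : ℝ[X]} (hp : p.natDegree ≤ d) :
    pl (fun k : Fin (d + 1) => p.coeff k) = p := by
  ext j
  rw [coeff_pl]
  split_ifs with h
  · rfl
  · rw [coeff_eq_zero_of_natDegree_lt (by omega)]

theorem continuous_aeval_pl {d : ℕ} (w : ℂ) :
    Continuous (fun a : Fin (d + 1) → ℝ => aeval w (pl a)) := by
  have : (fun a : Fin (d + 1) → ℝ => aeval w (pl a)) =
      fun a => ∑ k : Fin (d + 1), (a k : ℂ) * w ^ (k : ℕ) := by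
    funext a
    unfold pl
    rw [map_sum]
    apply Finset.sum_congr rfl
    intro k _
    rw [aeval_monomial]
    rfl
  rw [this]
  fun_prop

theorem isClosed_splits (d : ℕ) : IsClosed {a : Fin (d + 1) → ℝ | (pl a).Splits} := by
  have : {a : Fin (d + 1) → ℝ | (pl a).Splits} =
      ⋂ (z : ℂ) (w : ℂ) (_ : z.im ≠ 0), {a : Fin (d + 1) → ℝ |
        ‖aeval w (pl a)‖ ≤ ‖aeval z (pl a)‖ * (1 + ‖w - z‖ / |z.im|) ^ d} := by
    ext a
    simp only [mem_ofPred_eq, mem_iInter]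
    exact ⟨fun h z w hz => harnack h (natDegree_pl a) hz, fun h => splits_of_harnack h⟩
  rw [this]
  refine isClosed_iInter fun z => isClosed_iInter fun w => isClosed_iInter fun _ => ?_
  exact isClosed_le (continuous_aeval_pl w).norm ((continuous_aeval_pl z).norm.mul
    continuous_const)

/-- the bad set -/
def Cset (d : ℕ) (Z : Set ℕ) (l : ℝ → ℕ → ℝ) : Set (ℝ × (Fin (d + 1) → ℝ) × ℂ) :=
  {x | x.1 ∈ Icc 0 1 ∧ x.2.1 ∈ Metric.sphere (0 : Fin (d + 1) → ℝ) 1 ∧
    x.2.2 ∈ Metric.sphere (0:ℂ) 1 ∧ (pl x.2.1).Splits ∧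
    (∀ k : Fin (d + 1), (k : ℕ) ∈ Z → x.2.1 k = 0) ∧
    (∑ k : Fin (d + 1), ((l x.1 k * x.2.1 k : ℝ) : ℂ) * x.2.2 ^ (k : ℕ) = 0) ∧
    (∑ k : Fin (d + 1), ((l x.1 k * x.2.1 k : ℝ) : ℂ) *
      ∑ i ∈ Finset.range (k : ℕ), x.2.2 ^ i * (conj x.2.2) ^ ((k : ℕ) - 1 - i) = 0)}

theorem isCompact_Cset (d : ℕ) (Z : Set ℕ) {l : ℝ → ℕ → ℝ}
    (hl : ∀ k, Continuous (fun s => l s k)) : IsCompact (Cset d Z l) := by
  have hK : IsCompact ((Icc (0:ℝ) 1) ×ˢ ((Metric.sphere (0 : Fin (d + 1) → ℝ) 1) ×ˢ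
      (Metric.sphere (0:ℂ) 1))) :=
    isCompact_Icc.prod ((isCompact_sphere _ _).prod (isCompact_sphere _ _))
  apply hK.of_isClosed_subset
  · have h1 : IsClosed {x : ℝ × (Fin (d + 1) → ℝ) × ℂ | x.1 ∈ Icc (0:ℝ) 1} :=
      isClosed_Icc.preimage continuous_fst
    have h2 : IsClosed {x : ℝ × (Fin (d + 1) → ℝ) × ℂ |
        x.2.1 ∈ Metric.sphere (0 : Fin (d + 1) → ℝ) 1} :=
      Metric.isClosed_sphere.preimage (continuous_fst.comp continuous_snd)
    have h3 : IsClosed {x : ℝ × (Fin (d + 1) → ℝ) × ℂ | x.2.2 ∈ Metric.sphere (0:ℂ) 1} :=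
      Metric.isClosed_sphere.preimage (continuous_snd.comp continuous_snd)
    have h4 : IsClosed {x : ℝ × (Fin (d + 1) → ℝ) × ℂ | (pl x.2.1).Splits} :=
      (isClosed_splits d).preimage (continuous_fst.comp continuous_snd)
    have h5 : IsClosed {x : ℝ × (Fin (d + 1) → ℝ) × ℂ |
        ∀ k : Fin (d + 1), (k : ℕ) ∈ Z → x.2.1 k = 0} := by
      simp only [ofPred_forall]
      refine isClosed_iInter fun k => isClosed_iInter fun _ => ?_
      exact isClosed_eq (by fun_prop) continuous_const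
    have hc : ∀ k : Fin (d + 1), Continuous (fun x : ℝ × (Fin (d + 1) → ℝ) × ℂ =>
        ((l x.1 k * x.2.1 k : ℝ) : ℂ)) := by
      intro k
      have := (hl k).comp (continuous_fst (X := ℝ) (Y := (Fin (d + 1) → ℝ) × ℂ))
      exact Complex.continuous_ofReal.comp (this.mul (by fun_prop))
    have h6 : IsClosed {x : ℝ × (Fin (d + 1) → ℝ) × ℂ |
        ∑ k : Fin (d + 1), ((l x.1 k * x.2.1 k : ℝ) : ℂ) * x.2.2 ^ (k : ℕ) = 0} := by
      refine isClosed_eq (continuous_finsetSum _ fun k _ => (hc k).mul (by fun_prop))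
        continuous_const
    have h7 : IsClosed {x : ℝ × (Fin (d + 1) → ℝ) × ℂ |
        ∑ k : Fin (d + 1), ((l x.1 k * x.2.1 k : ℝ) : ℂ) *
          ∑ i ∈ Finset.range (k : ℕ), x.2.2 ^ i * (conj x.2.2) ^ ((k : ℕ) - 1 - i) = 0} := by
      refine isClosed_eq (continuous_finsetSum _ fun k _ => (hc k).mul
        (continuous_finsetSum _ fun i _ => ?_)) continuous_const
      exact ((continuous_snd.comp continuous_snd).pow i).mul
        ((Complex.continuous_conj.comp (continuous_snd.comp continuous_snd)).pow _)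
    exact h1.inter (h2.inter (h3.inter (h4.inter (h5.inter (h6.inter h7)))))
  · rintro x ⟨h1, h2, h3, -⟩
    exact ⟨h1, h2, h3⟩

theorem sumF_eq {d : ℕ} (l : ℕ → ℝ) (a : Fin (d + 1) → ℝ) (z : ℂ) :
    ∑ k : Fin (d + 1), ((l k * a k : ℝ) : ℂ) * z ^ (k : ℕ) = aeval z (dg l (pl a)) := by
  rw [aeval_eq ((natDegree_dg_le l _).trans (natDegree_pl a)), Finset.sum_range]
  apply Finset.sum_congr rfl
  intro k _
  rw [coeff_dg, coeff_pl']

theorem sumG_eq {d : ℕ} (l : ℕ → ℝ) (a : Fin (d + 1) → ℝ) (z : ℂ) :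
    ∑ k : Fin (d + 1), ((l k * a k : ℝ) : ℂ) *
      ∑ i ∈ Finset.range (k : ℕ), z ^ i * (conj z) ^ ((k : ℕ) - 1 - i) =
      Gp d (dg l (pl a)) z := by
  unfold Gp
  rw [Finset.sum_range]
  apply Finset.sum_congr rfl
  intro k _
  rw [coeff_dg, coeff_pl']

theorem bad_iff {d : ℕ} {Z : Set ℕ} {l : ℝ → ℕ → ℝ} {s : ℝ} (hs : s ∈ Icc (0:ℝ) 1) :
    s ∈ Prod.fst '' Cset d Z l ↔ ¬ Str d Z (l s) := by
  constructor
  · rintro ⟨⟨s', a, z⟩, ⟨h1, h2, h3, h4, h5, h6, h7⟩, rfl⟩ hstr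
    simp only at h1 h2 h3 h4 h5 h6 h7 hstr
    rw [sumF_eq] at h6
    rw [sumG_eq] at h7
    have ha : pl a ≠ 0 := by
      intro h
      have : a = 0 := by
        funext k
        rw [← coeff_pl' a k, h]; simp
      rw [this] at h2
      simp at h2
    have hW : InW d Z (pl a) := by
      refine ⟨natDegree_pl a, fun k hk => ?_⟩
      rw [coeff_pl]
      split_ifs with h
      · exact h5 ⟨k, h⟩ hk
      · rfl
    obtain ⟨g1, g2, g3⟩ := hstr _ hW ha h4
    have hdeg : (dg (l s') (pl a)).natDegree ≤ d := (natDegree_dg_le _ _).trans (natDegree_pl a)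
    rcases splits_iff_im.1 g2 with h | h
    · exact g1 h
    · have him := h z h6
      have hz : z = ((z.re : ℝ) : ℂ) := Complex.ext (by simp) (by simp [him])
      have hz0 : z.re ≠ 0 := by
        intro h0
        rw [mem_sphere_zero_iff_norm] at h3
        rw [hz, h0] at h3
        simp at h3
      rw [hz] at h6 h7
      rw [Gp_real hdeg] at h7
      apply g3 z.re hz0
      · have : ((eval z.re (dg (l s') (pl a)) : ℝ) : ℂ) = 0 := by
          rw [← h6, ← Complex.coe_algebraMap, ← aeval_algebraMap_apply_eq_algebraMap_eval]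
        exact_mod_cast this
      · exact_mod_cast h7
  · intro hns
    -- find a zero z0 ≠ 0 with vanishing divided difference
    unfold Str at hns
    push Not at hns
    obtain ⟨p, hW, hp0, hps, hbad⟩ := hns
    have hdeg : (dg (l s) p).natDegree ≤ d := (natDegree_dg_le _ _).trans hW.1
    obtain ⟨z0, hz0, hF, hG⟩ : ∃ z0 : ℂ, z0 ≠ 0 ∧ aeval z0 (dg (l s) p) = 0 ∧
        Gp d (dg (l s) p) z0 = 0 := by
      by_cases h1 : dg (l s) p = 0
      · refine ⟨1, one_ne_zero, by rw [h1]; simp, by rw [h1]; simp [Gp]⟩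
      · by_cases h2 : (dg (l s) p).Splits
        · obtain ⟨τ, hτ, hτ0, hτ1⟩ := hbad h1 h2
          refine ⟨(τ : ℂ), by exact_mod_cast hτ, ?_, ?_⟩
          · rw [← Complex.coe_algebraMap, aeval_algebraMap_apply_eq_algebraMap_eval, hτ0, map_zero]
          · rw [Gp_real hdeg, hτ1]; simp
        · rw [splits_iff_im] at h2
          push Not at h2
          obtain ⟨-, z, hz, him⟩ := h2
          refine ⟨z, ?_, hz, Gp_nonreal hdeg him hz⟩
          rintro rfl
          simp at him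
    -- scale
    have hc : 0 < ‖z0‖ := norm_pos_iff.2 hz0
    set c := ‖z0‖ with hcdef
    set p1 := p.comp (C c * X) with hp1
    have hp1c : ∀ k, p1.coeff k = p.coeff k * c ^ k := fun k => comp_C_mul_X_coeff
    have hp1deg : p1.natDegree ≤ d := by
      rw [natDegree_le_iff_coeff_eq_zero]
      intro N hN
      rw [hp1c, coeff_eq_zero_of_natDegree_lt (lt_of_le_of_lt hW.1 hN), zero_mul]
    set b : Fin (d + 1) → ℝ := fun k => p1.coeff k with hb
    have hb0 : b ≠ 0 := by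
      intro h
      apply hp0
      ext k
      rw [coeff_zero]
      by_cases hk : k < d + 1
      · have := congrFun h ⟨k, hk⟩
        simp only [hb, Pi.zero_apply, hp1c] at this
        rcases mul_eq_zero.1 this with h' | h'
        · exact h'
        · exact absurd h' (pow_ne_zero _ hc.ne')
      · exact coeff_eq_zero_of_natDegree_lt (by have := hW.1; omega)
    have hnb : 0 < ‖b‖ := norm_pos_iff.2 hb0
    refine ⟨(s, ‖b‖⁻¹ • b, z0 / c), ⟨hs, ?_, ?_, ?_, ?_, ?_, ?_⟩, rfl⟩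
    · simp only [mem_sphere_zero_iff_norm]
      rw [norm_smul, norm_inv, norm_norm, inv_mul_cancel₀ hnb.ne']
    · simp only [mem_sphere_zero_iff_norm]
      rw [norm_div, Complex.norm_real, Real.norm_of_nonneg hc.le, ← hcdef, div_self hc.ne']
    all_goals simp only
    · have : pl (‖b‖⁻¹ • b) = C ‖b‖⁻¹ * p1 := by
        ext j
        rw [coeff_pl, coeff_C_mul]
        split_ifs with h
        · simp [hb]
        · rw [coeff_eq_zero_of_natDegree_lt (by omega), mul_zero]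
      rw [this]
      apply Splits.C_mul
      exact hps.comp_of_natDegree_le_one ((natDegree_C_mul_le c X).trans natDegree_X_le)
    · intro k hk
      simp only [hb, Pi.smul_apply, smul_eq_mul, hp1c, hW.2 k hk, zero_mul, mul_zero]
    · have e1 : pl (‖b‖⁻¹ • b) = C ‖b‖⁻¹ * p1 := by
        ext j
        rw [coeff_pl, coeff_C_mul]
        split_ifs with h
        · simp [hb]
        · rw [coeff_eq_zero_of_natDegree_lt (by omega), mul_zero]
      rw [sumF_eq, e1, dg_C_mul, map_mul, hp1, ← dg_comp, aeval_scale]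
      rw [mul_div_cancel₀ z0 (by exact_mod_cast hc.ne' : (c:ℂ) ≠ 0), hF, mul_zero]
    · have e1 : pl (‖b‖⁻¹ • b) = C ‖b‖⁻¹ * p1 := by
        ext j
        rw [coeff_pl, coeff_C_mul]
        split_ifs with h
        · simp [hb]
        · rw [coeff_eq_zero_of_natDegree_lt (by omega), mul_zero]
      rw [sumG_eq, e1, dg_C_mul, Gp_C_mul, hp1, ← dg_comp, Gp_scale]
      rw [mul_div_cancel₀ z0 (by exact_mod_cast hc.ne' : (c:ℂ) ≠ 0), hG, mul_zero, mul_zero]

/-- **Continuity method.** -/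
theorem continuity {d : ℕ} {Z : Set ℕ} {l : ℝ → ℕ → ℝ} (hl : ∀ k, Continuous (fun s => l s k))
    (h0 : Str d Z (l 0)) (hb : ∀ s ∈ Icc (0:ℝ) 1, Pres d Z (l s) → Str d Z (l s)) :
    Str d Z (l 1) := by
  -- the good set is closed
  have hgood : IsClosed {s : ℝ | s ∈ Icc (0:ℝ) 1 ∧ Pres d Z (l s)} := by
    apply isClosed_Icc.inter
    have : {s : ℝ | Pres d Z (l s)} = ⋂ (p : ℝ[X]) (_ : InW d Z p) (_ : p.Splits),
        {s : ℝ | (dg (l s) p).Splits} := by
      ext s
      simp only [mem_ofPred_eq, mem_iInter, Pres]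
    change IsClosed {s : ℝ | Pres d Z (l s)}
    rw [this]
    refine isClosed_iInter fun p => isClosed_iInter fun hp => isClosed_iInter fun _ => ?_
    have hcont : Continuous (fun s : ℝ => (fun k : Fin (d + 1) => (dg (l s) p).coeff k)) := by
      apply continuous_pi
      intro k
      simp only [coeff_dg]
      exact (hl k).mul continuous_const
    have h2 : {s : ℝ | (dg (l s) p).Splits} =
        (fun s : ℝ => (fun k : Fin (d + 1) => (dg (l s) p).coeff k)) ⁻¹'
          {a : Fin (d + 1) → ℝ | (pl a).Splits} := by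
      ext s
      simp only [mem_ofPred_eq, mem_preimage]
      rw [pl_coeff ((natDegree_dg_le _ _).trans hp.1)]
    rw [h2]
    exact (isClosed_splits d).preimage hcont
  have hbadc : IsClosed (Prod.fst '' Cset d Z l) :=
    ((isCompact_Cset d Z hl).image continuous_fst).isClosed
  by_contra hcon
  have hconn : IsPreconnected (Icc (0:ℝ) 1) := isPreconnected_Icc
  rw [isPreconnected_closed_iff] at hconn
  have hcov : Icc (0:ℝ) 1 ⊆ {s : ℝ | s ∈ Icc (0:ℝ) 1 ∧ Pres d Z (l s)} ∪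
      (Prod.fst '' Cset d Z l) := by
    intro s hs
    by_cases h : Str d Z (l s)
    · exact Or.inl ⟨hs, h.pres⟩
    · exact Or.inr ((bad_iff hs).2 h)
  have hne1 : (Icc (0:ℝ) 1 ∩ {s : ℝ | s ∈ Icc (0:ℝ) 1 ∧ Pres d Z (l s)}).Nonempty :=
    ⟨0, ⟨by simp, ⟨by simp, h0.pres⟩⟩⟩
  have hne2 : (Icc (0:ℝ) 1 ∩ (Prod.fst '' Cset d Z l)).Nonempty :=
    ⟨1, ⟨by simp, (bad_iff (by simp)).2 hcon⟩⟩
  obtain ⟨s, hs, hs1, hs2⟩ := hconn _ _ hgood hbadc hcov hne1 hne2
  exact (bad_iff hs).1 hs2 (hb s hs hs1.2)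

end Pool.Agent.H47.RR
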