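import Mathlib
import Pool.Agent.H47.RR.Cont

set_option autoImplicit false
set_option linter.unusedSectionVars false
set_option linter.unusedSimpArgs false
set_option linter.unusedVariables false

namespace Pool.Agent.H47.RR

open Polynomial Set Filter Topology

/-! ### products of linear factors -/

/-- the polynomial with roots `R` and leading coefficient `c` -/
noncomputable def mp (c : ℝ) (R : Multiset ℝ) : ℝ[X] := C c * (R.map fun a => X - C a).prod

theorem mp_cons (c a : ℝ) (R : Multiset ℝ) : mp c (a ::ₘ R) = (X - C a) * mp c R := by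
  unfold mp
  rw [Multiset.map_cons, Multiset.prod_cons]
  ring

theorem mp_zero (c : ℝ) : mp c 0 = C c := by unfold mp; simp

theorem mp_splits (c : ℝ) (R : Multiset ℝ) : (mp c R).Splits := by
  induction R using Multiset.induction with
  | empty => rw [mp_zero]; exact Splits.C c
  | cons a R ih => rw [mp_cons]; exact (Splits.X_sub_C a).mul ih

theorem mp_ne_zero {c : ℝ} (hc : c ≠ 0) (R : Multiset ℝ) : mp c R ≠ 0 := by
  induction R using Multiset.induction with
  | empty => rw [mp_zero]; exact C_ne_zero.2 hc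
  | cons a R ih => rw [mp_cons]; exact mul_ne_zero (X_sub_C_ne_zero a) ih

theorem mp_natDegree {c : ℝ} (hc : c ≠ 0) (R : Multiset ℝ) : (mp c R).natDegree = R.card := by
  induction R using Multiset.induction with
  | empty => rw [mp_zero]; simp
  | cons a R ih =>
    rw [mp_cons, natDegree_mul (X_sub_C_ne_zero a) (mp_ne_zero hc R), ih, natDegree_X_sub_C,
      Multiset.card_cons, add_comm]

theorem mp_roots {c : ℝ} (hc : c ≠ 0) (R : Multiset ℝ) : (mp c R).roots = R := by
  unfold mp
  rw [roots_C_mul _ hc, roots_multiset_prod_X_sub_C]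

theorem eq_mp {p : ℝ[X]} (hp : p.Splits) : p = mp p.leadingCoeff p.roots := hp.eq_prod_roots

/-! ### Laguerre at a double root -/

theorem lag_one {f g : ℝ[X]} {τ ε : ℝ} (hε : 0 < ε)
    (h : ∀ s : ℝ, 0 < s → s < ε → (f - C s * g).Splits)
    (h0 : f.eval τ = 0) (h1 : f.derivative.eval τ = 0) :
    0 ≤ g.eval τ * f.derivative.derivative.eval τ := by
  have key : ∀ s ∈ Ioo (0:ℝ) ε, 0 ≤ s * ((g.derivative.eval τ) ^ 2 -
      g.eval τ * g.derivative.derivative.eval τ) +
      g.eval τ * f.derivative.derivative.eval τ := by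
    intro s hs
    have hL := laguerre (h s hs.1 hs.2) τ
    unfold Lag at hL
    simp only [derivative_sub, derivative_C_mul, eval_sub, eval_mul, eval_C, h0, h1] at hL
    have h2 : 0 ≤ s * (s * ((g.derivative.eval τ) ^ 2 -
      g.eval τ * g.derivative.derivative.eval τ) +
      g.eval τ * f.derivative.derivative.eval τ) := by
      refine hL.trans (le_of_eq ?_)
      ring
    exact nonneg_of_mul_nonneg_right h2 hs.1
  have hlim : Tendsto (fun s : ℝ => s * ((g.derivative.eval τ) ^ 2 -
      g.eval τ * g.derivative.derivative.eval τ) +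
      g.eval τ * f.derivative.derivative.eval τ) (𝓝[>] 0)
      (𝓝 (0 * ((g.derivative.eval τ) ^ 2 -
      g.eval τ * g.derivative.derivative.eval τ) +
      g.eval τ * f.derivative.derivative.eval τ)) := by
    apply Tendsto.mono_left _ nhdsWithin_le_nhds
    apply Continuous.tendsto
    fun_prop
  rw [zero_mul, zero_add] at hlim
  refine ge_of_tendsto hlim ?_
  filter_upwards [Ioo_mem_nhdsGT hε] with s hs
  exact key s hs

theorem lag_two {f g : ℝ[X]} {τ ε : ℝ} (hε : 0 < ε)
    (h : ∀ s : ℝ, -ε < s → s < ε → (f - C s * g).Splits)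
    (h0 : f.eval τ = 0) (h1 : f.derivative.eval τ = 0)
    (h2 : f.derivative.derivative.eval τ ≠ 0) : g.eval τ = 0 := by
  have e1 := lag_one (g := g) hε (fun s hs1 hs2 => h s (by linarith) hs2) h0 h1
  have e2 := lag_one (g := -g) hε (fun s hs1 hs2 => by
    have := h (-s) (by linarith) (by linarith)
    have e : f - C (-s) * g = f - C s * -g := by rw [C_neg]; ring
    rwa [e] at this) h0 h1
  rw [eval_neg] at e2
  have e3 : g.eval τ * f.derivative.derivative.eval τ = 0 := by linarith
  rcases mul_eq_zero.1 e3 with h | h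
  · exact h
  · exact absurd h h2

/-! ### consequences of strictness -/

theorem inW_empty {n : ℕ} {p : ℝ[X]} (h : p.natDegree ≤ n) : InW n ∅ p := ⟨h, fun k hk => hk.elim⟩

theorem Str.ne_zero {n : ℕ} {l : ℕ → ℝ} (h : Str n ∅ l) {k : ℕ} (hk : k ≤ n) : l k ≠ 0 := by
  intro h0
  have h1 := (h (X ^ k) (inW_empty (by rw [natDegree_X_pow]; exact hk)) (pow_ne_zero _ X_ne_zero)
    (Splits.X_pow k)).1
  apply h1
  ext j
  rw [coeff_dg, coeff_X_pow, coeff_zero]
  split_ifs with hj
  · rw [hj, h0]; simp
  · simp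

theorem S2 {n : ℕ} {l : ℕ → ℝ} (h : Str (n + 1) ∅ l) {q : ℝ[X]} (hq0 : q ≠ 0) (hq : q.Splits)
    (hd : q.natDegree ≤ n) {τ : ℝ} (hτ : τ ≠ 0) (h1 : (dg l q).eval τ = 0)
    (h2 : (dg l (X * q)).eval τ = 0) : False := by
  have hq1 := (h q (inW_empty (by omega)) hq0 hq).2.2 τ hτ h1
  set A := (dg l q).derivative.eval τ with hA
  set B := (dg l (X * q)).derivative.eval τ with hB
  have hp0 : (X - C (B / A)) * q ≠ 0 := mul_ne_zero (X_sub_C_ne_zero _) hq0
  have hpd : ((X - C (B / A)) * q).natDegree ≤ n + 1 := by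
    rw [natDegree_mul (X_sub_C_ne_zero _) hq0, natDegree_X_sub_C]; omega
  have he : dg l ((X - C (B / A)) * q) = dg l (X * q) - C (B / A) * dg l q := by
    rw [sub_mul, dg_sub, dg_C_mul]
  have h3 := (h _ (inW_empty hpd) hp0 ((Splits.X_sub_C _).mul hq)).2.2 τ hτ (by
    rw [he, eval_sub, eval_mul, h1, h2]; simp)
  apply h3
  rw [he, derivative_sub, derivative_C_mul, eval_sub, eval_mul, eval_C, ← hA, ← hB,
    div_mul_cancel₀ _ hq1, sub_self]

/-- a quadratic with nonnegative discriminant splits -/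
theorem quad_splits (c s u v : ℝ) (h : c ≠ 0 ∨ s ≠ 0) :
    (C c * ((X - C u) ^ 2 - C (v ^ 2)) + C s * (X - C u) : ℝ[X]).Splits ∧
    (C c * ((X - C u) ^ 2 - C (v ^ 2)) + C s * (X - C u) : ℝ[X]) ≠ 0 ∧
    (C c * ((X - C u) ^ 2 - C (v ^ 2)) + C s * (X - C u) : ℝ[X]).natDegree ≤ 2 := by
  by_cases hc : c = 0
  · have hs : s ≠ 0 := by
      rcases h with h | h
      · exact absurd hc h
      · exact h
    rw [hc]
    simp only [C_0, zero_mul, zero_add]
    refine ⟨(Splits.X_sub_C u).C_mul s, mul_ne_zero (C_ne_zero.2 hs) (X_sub_C_ne_zero u), ?_⟩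
    refine (natDegree_C_mul_le _ _).trans ?_
    rw [natDegree_X_sub_C]; norm_num
  · set D := Real.sqrt (s ^ 2 + 4 * c ^ 2 * v ^ 2) with hD
    have hD2 : D ^ 2 = s ^ 2 + 4 * c ^ 2 * v ^ 2 := Real.sq_sqrt (by positivity)
    have he : (C c * ((X - C u) ^ 2 - C (v ^ 2)) + C s * (X - C u) : ℝ[X]) =
        C c * ((X - C (u + (-s + D) / (2 * c))) * (X - C (u + (-s - D) / (2 * c)))) := by
      apply Polynomial.funext
      intro x
      simp only [eval_add, eval_mul, eval_sub, eval_pow, eval_X, eval_C]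
      field_simp
      ring_nf
      rw [hD2]
      ring
    rw [he]
    refine ⟨((Splits.X_sub_C _).mul (Splits.X_sub_C _)).C_mul c,
      mul_ne_zero (C_ne_zero.2 hc) (mul_ne_zero (X_sub_C_ne_zero _) (X_sub_C_ne_zero _)), ?_⟩
    refine (natDegree_C_mul_le _ _).trans ?_
    rw [natDegree_mul (X_sub_C_ne_zero _) (X_sub_C_ne_zero _), natDegree_X_sub_C,
      natDegree_X_sub_C]

theorem TT {n : ℕ} {l : ℕ → ℝ} (h : Str (n + 2) ∅ l) {e : ℝ[X]} (he0 : e ≠ 0) (he : e.Splits)
    (hd : e.natDegree ≤ n) {τ : ℝ} (hτ : τ ≠ 0) :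
    (dg l e).eval τ * (dg l (X ^ 2 * e)).eval τ < ((dg l (X * e)).eval τ) ^ 2 := by
  set α := (dg l e).eval τ with hα
  set β := (dg l (X * e)).eval τ with hβ
  set γ := (dg l (X ^ 2 * e)).eval τ with hγ
  have hXe : (X * e).natDegree ≤ n + 1 := by
    rw [natDegree_X_mul he0]; omega
  by_contra hcon
  push Not at hcon
  have hα0 : α ≠ 0 := by
    intro h0
    have hβ0 : β = 0 := by
      rw [h0, zero_mul] at hcon
      have : β ^ 2 = 0 := le_antisymm hcon (sq_nonneg _)
      simpa using this
    exact S2 (n := n + 1) h he0 he (by omega) hτ h0 hβ0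
  set u := β / α with hu
  set w := (α * γ - β ^ 2) / α ^ 2 with hw
  have hw0 : 0 ≤ w := by
    apply div_nonneg _ (sq_nonneg _)
    linarith
  set v := Real.sqrt w with hv
  have hv2 : v ^ 2 = w := Real.sq_sqrt hw0
  -- the two polynomials
  have e1 : dg l (((X - C u) ^ 2 - C (v ^ 2)) * e) =
      dg l (X ^ 2 * e) - C (2 * u) * dg l (X * e) + C (u ^ 2 - v ^ 2) * dg l e := by
    rw [← dg_C_mul, ← dg_C_mul, ← dg_sub, ← dg_add]
    congr 1
    simp only [C_mul, C_sub, C_pow, C_ofNat]
    ring
  have e2 : dg l ((X - C u) * e) = dg l (X * e) - C u * dg l e := by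
    rw [← dg_C_mul, ← dg_sub]
    congr 1
    ring
  have z1 : (dg l (((X - C u) ^ 2 - C (v ^ 2)) * e)).eval τ = 0 := by
    rw [e1]
    simp only [eval_add, eval_sub, eval_mul, eval_C, ← hα, ← hβ, ← hγ]
    rw [hv2, hu, hw]
    field_simp
    ring
  have z2 : (dg l ((X - C u) * e)).eval τ = 0 := by
    rw [e2]
    simp only [eval_sub, eval_mul, eval_C, ← hα, ← hβ]
    rw [hu]
    field_simp
    ring
  set w1 := (dg l (((X - C u) ^ 2 - C (v ^ 2)) * e)).derivative.eval τ with hw1
  set w2 := (dg l ((X - C u) * e)).derivative.eval τ with hw2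
  obtain ⟨c, s, hcs, hz⟩ : ∃ c s : ℝ, (c ≠ 0 ∨ s ≠ 0) ∧ c * w1 + s * w2 = 0 := by
    by_cases h1 : w1 = 0
    · exact ⟨1, 0, Or.inl one_ne_zero, by rw [h1]; ring⟩
    · exact ⟨-w2 / w1, 1, Or.inr one_ne_zero, by field_simp; ring⟩
  obtain ⟨q1, q2, q3⟩ := quad_splits c s u v hcs
  have he3 : dg l ((C c * ((X - C u) ^ 2 - C (v ^ 2)) + C s * (X - C u)) * e) =
      C c * dg l (((X - C u) ^ 2 - C (v ^ 2)) * e) + C s * dg l ((X - C u) * e) := by
    rw [← dg_C_mul, ← dg_C_mul, ← dg_add]
    congr 1
    ring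
  have h3 := (h _ (inW_empty (by rw [natDegree_mul q2 he0]; omega)) (mul_ne_zero q2 he0)
    (q1.mul he)).2.2 τ hτ (by
      rw [he3]
      simp only [eval_add, eval_mul, eval_C]
      rw [z1, z2]; ring)
  apply h3
  rw [he3]
  simp only [derivative_add, derivative_C_mul, eval_add, eval_mul, eval_C, ← hw1, ← hw2]
  exact hz

/-- transfer of double roots under scaling -/
theorem scale_double {k b : ℝ} (hk : k ≠ 0) (hb : b ≠ 0) {r f : ℝ[X]}
    (hf : f = C k * r.comp (C b * X)) {τ : ℝ} (hτ : τ ≠ 0)
    (hr : ∀ σ : ℝ, σ ≠ 0 → r.eval σ = 0 → r.derivative.eval σ ≠ 0)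
    (h0 : f.eval τ = 0) (h1 : f.derivative.eval τ = 0) : False := by
  rw [hf] at h0 h1
  rw [derivative_C_mul, derivative_comp] at h1
  simp only [derivative_C_mul, derivative_X, mul_one, eval_mul, eval_C, eval_comp, eval_X] at h0 h1
  have e0 : r.eval (b * τ) = 0 := by
    rcases mul_eq_zero.1 h0 with h | h
    · exact absurd h hk
    · exact h
  have e1 : r.derivative.eval (b * τ) = 0 := by
    rcases mul_eq_zero.1 h1 with h | h
    · exact absurd h hk
    · rcases mul_eq_zero.1 h with h | h
      · exact absurd h hb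
      · exact h
  exact hr _ (mul_ne_zero hb hτ) e0 e1

/-- **Lemma A** for the full space. -/
theorem lemA {n : ℕ} {l : ℕ → ℝ} (hP : Pres (n + 1) ∅ l) (hS : Str n ∅ l)
    (hS' : Str n ∅ (fun k => l (k + 1)))
    (hJ : ∀ σ : ℝ, σ ≠ 0 → (dg l ((X - C 1) ^ (n + 1))).eval σ = 0 →
      (dg l ((X - C 1) ^ (n + 1))).derivative.eval σ ≠ 0) : Str (n + 1) ∅ l := by
  intro p hp hp0 hps
  have hln : l (n + 1) ≠ 0 := hS'.ne_zero le_rfl
  have hlk : ∀ k ≤ n + 1, l k ≠ 0 := by
    intro k hk
    rcases Nat.lt_or_ge n k with h | h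
    · have : k = n + 1 := by omega
      rw [this]; exact hln
    · exact hS.ne_zero h
  refine ⟨?_, hP p hp hps, ?_⟩
  · intro h0
    apply hp0
    ext k
    rw [coeff_zero]
    by_cases hk : k ≤ n + 1
    · have : (dg l p).coeff k = 0 := by rw [h0]; simp
      rw [coeff_dg] at this
      rcases mul_eq_zero.1 this with h | h
      · exact absurd h (hlk k hk)
      · exact h
    · exact coeff_eq_zero_of_natDegree_lt (by have := hp.1; omega)
  · intro τ hτ h0 h1
    have hdeg : p.natDegree = n + 1 := by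
      by_contra hne
      have hle : p.natDegree ≤ n := by have := hp.1; omega
      exact (hS p (inW_empty hle) hp0 hps).2.2 τ hτ h0 h1
    have hp'0 : p.derivative ≠ 0 := by
      intro h
      have := Polynomial.derivative_eq_zero.1 h
      omega
    have h2 : (dg l p).derivative.derivative.eval τ ≠ 0 := by
      have h3 := (hS' p.derivative (inW_empty (by
        have := natDegree_derivative_le p; omega)) hp'0 (splits_derivative hps)).2.2 τ hτ
      rw [← derivative_dg] at h3
      exact h3 h1
    -- factorizations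
    have hfac : ∀ (x : ℝ) (g : ℝ[X]), p = (X - C x) * g → (dg l g).eval τ = 0 := by
      intro x g hg
      have hgs : g.Splits := by
        rw [hg] at hps
        exact splits_X_sub_C_mul_iff.1 hps
      have hg0 : g ≠ 0 := by rintro rfl; rw [mul_zero] at hg; exact hp0 hg
      refine lag_two one_pos (fun s _ _ => ?_) h0 h1 h2
      rw [← dg_C_mul, ← dg_sub]
      apply hP
      · apply inW_empty
        have : p - C s * g = (X - C (x + s)) * g := by rw [hg, C_add]; ring
        rw [this, natDegree_mul (X_sub_C_ne_zero _) hg0, natDegree_X_sub_C]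
        have h3 : p.natDegree = 1 + g.natDegree := by
          rw [hg, natDegree_mul (X_sub_C_ne_zero _) hg0, natDegree_X_sub_C]
        omega
      · have : p - C s * g = (X - C (x + s)) * g := by rw [hg, C_add]; ring
        rw [this]
        exact (Splits.X_sub_C _).mul hgs
    set c := p.leadingCoeff with hc
    have hc0 : c ≠ 0 := leadingCoeff_ne_zero.2 hp0
    have hpm : p = mp c p.roots := eq_mp hps
    have hcard : p.roots.card = n + 1 := by rw [← hdeg]; exact (splits_iff_card_roots.1 hps)
    obtain ⟨a, ha⟩ := Multiset.exists_mem_of_ne_zero (show p.roots ≠ 0 by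
      intro h; rw [h] at hcard; simp at hcard)
    by_cases hall : ∀ b ∈ p.roots, b = a
    · -- all roots equal
      have hrep : p.roots = Multiset.replicate (n + 1) a :=
        Multiset.eq_replicate.2 ⟨hcard, hall⟩
      have hpa : p = C c * (X - C a) ^ (n + 1) := by
        rw [hrep] at hpm
        rw [hpm]
        unfold mp
        rw [Multiset.map_replicate, Multiset.prod_replicate]
      by_cases ha0 : a = 0
      · rw [hpa, ha0, C_0, sub_zero, dg_C_mul] at h0
        have e1 : dg l (X ^ (n + 1)) = C (l (n + 1)) * X ^ (n + 1) := by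
          ext j
          rw [coeff_dg, coeff_C_mul, coeff_X_pow]
          split_ifs with hj
          · rw [hj]
          · simp
        rw [e1] at h0
        simp only [eval_mul, eval_C, eval_pow, eval_X] at h0
        have : c * (l (n + 1) * τ ^ (n + 1)) ≠ 0 := by positivity
        exact this h0
      · refine scale_double (k := c * a ^ (n + 1)) (b := a⁻¹) (by positivity) (by positivity)
          (r := dg l ((X - C 1) ^ (n + 1))) (f := dg l p) ?_ hτ hJ h0 h1
        rw [dg_comp, ← dg_C_mul, hpa]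
        congr 1
        apply Polynomial.funext
        intro x
        simp only [eval_mul, eval_C, eval_pow, eval_sub, eval_X, eval_comp]
        rw [mul_assoc, ← mul_pow]
        congr 2
        field_simp
    · push Not at hall
      obtain ⟨b, hb, hba⟩ := hall
      obtain ⟨R1, hR1⟩ := Multiset.exists_cons_of_mem ha
      have hbR : b ∈ R1 := by
        rw [hR1, Multiset.mem_cons] at hb
        rcases hb with h | h
        · exact absurd h hba
        · exact h
      obtain ⟨R2, hR2⟩ := Multiset.exists_cons_of_mem hbR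
      have hp1 : p = (X - C a) * ((X - C b) * mp c R2) := by
        rw [← mp_cons, ← hR2, ← mp_cons, ← hR1]; exact hpm
      have hp2 : p = (X - C b) * ((X - C a) * mp c R2) := by rw [hp1]; ring
      have z1 := hfac a _ hp1
      have z2 := hfac b _ hp2
      have e1 : ∀ x : ℝ, dg l ((X - C x) * mp c R2) = dg l (X * mp c R2) - C x * dg l (mp c R2) := by
        intro x
        rw [← dg_C_mul, ← dg_sub]
        congr 1
        ring
      rw [e1] at z1 z2
      simp only [eval_sub, eval_mul, eval_C] at z1 z2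
      have z3 : (dg l (mp c R2)).eval τ = 0 := by
        have : (b - a) * (dg l (mp c R2)).eval τ = 0 := by linarith
        rcases mul_eq_zero.1 this with h | h
        · exact absurd (by linarith : b = a) hba
        · exact h
      have z4 : (dg l (X * mp c R2)).eval τ = 0 := by rw [z3] at z1; linarith
      have hc2 : R2.card + 2 = n + 1 := by
        rw [← hcard, hR1, hR2]; simp
      obtain ⟨m, rfl⟩ : ∃ m, n = m + 1 := ⟨n - 1, by omega⟩
      exact S2 hS (mp_ne_zero hc0 R2) (mp_splits c R2) (by rw [mp_natDegree hc0]; omega) hτ z3 z4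

end Pool.Agent.H47.RR
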