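import Mathlib
import Pool.Agent.H47.RR.Lem

set_option autoImplicit false
set_option linter.unusedSectionVars false
set_option linter.unusedSimpArgs false
set_option linter.unusedVariables false

namespace Pool.Agent.H47.RR

open Polynomial Set Filter Topology

/-- the extremal polynomial `(t-1)^m (t+m)` of degree `m+1` -/
noncomputable def qq (m : ℕ) : ℝ[X] := (X - C 1) ^ m * (X + C (m : ℝ))

/-- trichotomy for multisets -/
theorem trichotomy {m : ℕ} {R : Multiset ℝ} (hR : R.card = m + 2) :
    (∃ a b c : ℝ, ∃ R' : Multiset ℝ, a ≠ b ∧ a ≠ c ∧ b ≠ c ∧ R = a ::ₘ b ::ₘ c ::ₘ R') ∨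
    (∃ a b : ℝ, ∃ R' : Multiset ℝ, a ≠ b ∧ R = a ::ₘ a ::ₘ b ::ₘ b ::ₘ R') ∨
    (∃ a b : ℝ, R = b ::ₘ Multiset.replicate (m + 1) a) := by
  classical
  have hR0 : R ≠ 0 := by intro h; rw [h] at hR; simp at hR
  obtain ⟨a, ha⟩ := Multiset.exists_mem_of_ne_zero hR0
  by_cases h1 : ∀ b ∈ R, b = a
  · right; right
    refine ⟨a, a, ?_⟩
    rw [← Multiset.replicate_succ]
    exact Multiset.eq_replicate.2 ⟨hR, h1⟩
  · push Not at h1
    obtain ⟨b, hb, hba⟩ := h1
    obtain ⟨R1, hR1⟩ := Multiset.exists_cons_of_mem ha
    have hbR : b ∈ R1 := by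
      rw [hR1, Multiset.mem_cons] at hb
      rcases hb with h | h
      · exact absurd h hba
      · exact h
    obtain ⟨R2, hR2⟩ := Multiset.exists_cons_of_mem hbR
    have hRab : R = a ::ₘ b ::ₘ R2 := by rw [hR1, hR2]
    have hcard2 : R2.card = m := by
      rw [hRab] at hR; simpa using hR
    by_cases h2 : ∀ c ∈ R2, c = a ∨ c = b
    · by_cases h3 : a ∈ R2
      · by_cases h4 : b ∈ R2
        · right; left
          obtain ⟨R3, hR3⟩ := Multiset.exists_cons_of_mem h3
          have h4' : b ∈ R3 := by
            rw [hR3, Multiset.mem_cons] at h4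
            rcases h4 with h | h
            · exact absurd h hba
            · exact h
          obtain ⟨R4, hR4⟩ := Multiset.exists_cons_of_mem h4'
          refine ⟨a, b, R4, hba.symm, ?_⟩
          rw [hRab, hR3, hR4]
          rw [Multiset.cons_swap b a]
        · right; right
          refine ⟨a, b, ?_⟩
          have : R2 = Multiset.replicate m a := Multiset.eq_replicate.2 ⟨hcard2, fun c hc => by
            rcases h2 c hc with h | h
            · exact h
            · rw [h] at hc; exact absurd hc h4⟩
          rw [hRab, this, Multiset.cons_swap, ← Multiset.replicate_succ]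
      · right; right
        refine ⟨b, a, ?_⟩
        have : R2 = Multiset.replicate m b := Multiset.eq_replicate.2 ⟨hcard2, fun c hc => by
            rcases h2 c hc with h | h
            · rw [h] at hc; exact absurd hc h3
            · exact h⟩
        rw [hRab, this, ← Multiset.replicate_succ]
    · left
      push Not at h2
      obtain ⟨c, hc, hca, hcb⟩ := h2
      obtain ⟨R3, hR3⟩ := Multiset.exists_cons_of_mem hc
      exact ⟨a, b, c, R3, hba.symm, hca.symm, hcb.symm, by rw [hRab, hR3]⟩

/-- the coefficient below the leading one -/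
theorem mp_coeff_pred (c : ℝ) (R : Multiset ℝ) (m : ℕ) (hR : R.card = m + 1) :
    (mp c R).coeff m = - c * R.sum := by
  by_cases hc : c = 0
  · rw [hc]; unfold mp; simp
  · have h1 := (mp_splits c R).nextCoeff_eq_neg_sum_roots_mul_leadingCoeff
    have h2 : (mp c R).natDegree = m + 1 := by rw [mp_natDegree hc, hR]
    have h3 : (mp c R).leadingCoeff = c := by
      unfold mp
      rw [leadingCoeff_mul, leadingCoeff_C]
      have : (R.map fun a => X - C a).prod.Monic := monic_multiset_prod_of_monic _ _
        (fun a _ => monic_X_sub_C a)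
      rw [this.leadingCoeff, mul_one]
    rw [nextCoeff_of_natDegree_pos (by omega), h2, mp_roots hc, h3] at h1
    simp only [Nat.add_sub_cancel] at h1
    rw [h1]

/-- **Lemma A'** for trace-zero polynomials of degree `m + 2`. -/
theorem lemA' {m : ℕ} {l : ℕ → ℝ} (hP : Pres (m + 2) {m + 1} l) (hS : Str m ∅ l)
    (hT : Str (m + 1) {m} (fun k => l (k + 1))) (hl : l (m + 2) ≠ 0)
    (hr : ∀ σ : ℝ, σ ≠ 0 → (dg l (qq (m + 1))).eval σ = 0 →
      (dg l (qq (m + 1))).derivative.eval σ ≠ 0) : Str (m + 2) {m + 1} l := by
  intro p hp hp0 hps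
  have hpc : p.coeff (m + 1) = 0 := hp.2 (m + 1) rfl
  refine ⟨?_, hP p hp hps, ?_⟩
  · intro h0
    apply hp0
    ext k
    rw [coeff_zero]
    have h1 : (dg l p).coeff k = 0 := by rw [h0]; simp
    rw [coeff_dg] at h1
    by_cases hk : k ≤ m
    · rcases mul_eq_zero.1 h1 with h | h
      · exact absurd h (hS.ne_zero hk)
      · exact h
    · by_cases hk1 : k = m + 1
      · rw [hk1]; exact hpc
      · by_cases hk2 : k = m + 2
        · rw [hk2] at h1 ⊢
          rcases mul_eq_zero.1 h1 with h | h
          · exact absurd h hl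
          · exact h
        · exact coeff_eq_zero_of_natDegree_lt (by have := hp.1; omega)
  · intro τ hτ h0 h1
    have hdeg : p.natDegree = m + 2 := by
      by_contra hne
      have hle : p.natDegree ≤ m + 1 := by have := hp.1; omega
      have hle2 : p.natDegree ≤ m := by
        rw [natDegree_le_iff_coeff_eq_zero]
        intro N hN
        rcases Nat.lt_or_ge (m + 1) N with h | h
        · exact coeff_eq_zero_of_natDegree_lt (by omega)
        · have : N = m + 1 := by omega
          rw [this]; exact hpc
      exact (hS p (inW_empty hle2) hp0 hps).2.2 τ hτ h0 h1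
    have hp'0 : p.derivative ≠ 0 := by
      intro h
      have := Polynomial.derivative_eq_zero.1 h
      omega
    have h2 : (dg l p).derivative.derivative.eval τ ≠ 0 := by
      have hW' : InW (m + 1) {m} p.derivative := by
        refine ⟨by have := natDegree_derivative_le p; omega, fun k hk => ?_⟩
        rw [mem_singleton_iff] at hk
        rw [hk, coeff_derivative, hpc, zero_mul]
      have h3 := (hT p.derivative hW' hp'0 (splits_derivative hps)).2.2 τ hτ
      rw [← derivative_dg] at h3
      exact h3 h1
    -- the basic perturbation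
    have hpert : ∀ (x y : ℝ) (g : ℝ[X]), p = (X - C x) * ((X - C y) * g) →
        ∀ s : ℝ, 0 ≤ (x - y) ^ 2 + 4 * s → (dg l p - C s * dg l g).Splits := by
      intro x y g hg s hs
      have hg0 : g ≠ 0 := by rintro rfl; rw [mul_zero, mul_zero] at hg; exact hp0 hg
      have hgs : g.Splits := by
        rw [hg] at hps
        exact splits_X_sub_C_mul_iff.1 (splits_X_sub_C_mul_iff.1 hps)
      have hgd : g.natDegree = m := by
        have : p.natDegree = 1 + (1 + g.natDegree) := by
          rw [hg, natDegree_mul (X_sub_C_ne_zero _) (mul_ne_zero (X_sub_C_ne_zero _) hg0),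
            natDegree_mul (X_sub_C_ne_zero _) hg0, natDegree_X_sub_C, natDegree_X_sub_C]
        omega
      rw [← dg_C_mul, ← dg_sub]
      apply hP
      · refine ⟨?_, fun k hk => ?_⟩
        · refine (natDegree_sub_le _ _).trans ?_
          rw [max_le_iff]
          exact ⟨hdeg.le, (natDegree_C_mul_le _ _).trans (by omega)⟩
        · rw [mem_singleton_iff] at hk
          rw [hk, coeff_sub, coeff_C_mul, hpc, coeff_eq_zero_of_natDegree_lt (p := g) (by omega)]
          simp
      · set D := Real.sqrt ((x - y) ^ 2 + 4 * s) with hD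
        have hD2 : D ^ 2 = (x - y) ^ 2 + 4 * s := Real.sq_sqrt hs
        have he : p - C s * g = (X - C ((x + y + D) / 2)) * ((X - C ((x + y - D) / 2)) * g) := by
          apply Polynomial.funext
          intro t
          rw [hg]
          simp only [eval_sub, eval_mul, eval_X, eval_C]
          have : (t - (x + y + D) / 2) * ((t - (x + y - D) / 2) * eval t g) =
              (t ^ 2 - (x + y) * t + ((x + y) ^ 2 - D ^ 2) / 4) * eval t g := by ring
          rw [this, hD2]
          ring
        rw [he]
        exact (Splits.X_sub_C _).mul ((Splits.X_sub_C _).mul hgs)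
    have hne : ∀ (x y : ℝ) (g : ℝ[X]), x ≠ y → p = (X - C x) * ((X - C y) * g) →
        (dg l g).eval τ = 0 := by
      intro x y g hxy hg
      have hpos : 0 < (x - y) ^ 2 / 4 := by
        have : x - y ≠ 0 := sub_ne_zero.2 hxy
        positivity
      exact lag_two hpos (fun s hs _ => hpert x y g hg s (by linarith)) h0 h1 h2
    have hnn : ∀ (x : ℝ) (g : ℝ[X]), p = (X - C x) * ((X - C x) * g) →
        0 ≤ (dg l g).eval τ * (dg l p).derivative.derivative.eval τ := by
      intro x g hg
      exact lag_one one_pos (fun s hs _ => hpert x x g hg s (by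
        rw [sub_self]; linarith)) h0 h1
    set c := p.leadingCoeff with hc
    have hc0 : c ≠ 0 := leadingCoeff_ne_zero.2 hp0
    have hpm : p = mp c p.roots := eq_mp hps
    have hcard : p.roots.card = m + 2 := by rw [← hdeg]; exact (splits_iff_card_roots.1 hps)
    have e1 : ∀ (x : ℝ) (k : ℝ[X]), dg l ((X - C x) * k) = dg l (X * k) - C x * dg l k := by
      intro x k
      rw [← dg_C_mul, ← dg_sub]
      congr 1
      ring
    rcases trichotomy hcard with ⟨a, b, d, R, hab, had, hbd, hR⟩ | ⟨a, b, R, hab, hR⟩ | ⟨a, b, hR⟩
    · -- three distinct roots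
      rw [hR, mp_cons, mp_cons, mp_cons] at hpm
      have z1 := hne a b ((X - C d) * mp c R) hab hpm
      have z2 := hne b d ((X - C a) * mp c R) hbd (by rw [hpm]; ring)
      rw [e1] at z1 z2
      simp only [eval_sub, eval_mul, eval_C] at z1 z2
      have z3 : (dg l (mp c R)).eval τ = 0 := by
        have : (a - d) * (dg l (mp c R)).eval τ = 0 := by linarith
        rcases mul_eq_zero.1 this with h | h
        · exact absurd (by linarith : a = d) had
        · exact h
      have z4 : (dg l (X * mp c R)).eval τ = 0 := by rw [z3] at z1; linarith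
      have hc2 : R.card + 3 = m + 2 := by
        rw [← hcard, hR]; simp
      obtain ⟨m', rfl⟩ : ∃ m', m = m' + 1 := ⟨m - 1, by omega⟩
      exact S2 hS (mp_ne_zero hc0 R) (mp_splits c R) (by rw [mp_natDegree hc0]; omega) hτ z3 z4
    · -- two double roots
      rw [hR, mp_cons, mp_cons, mp_cons, mp_cons] at hpm
      have z1 := hne a b ((X - C a) * ((X - C b) * mp c R)) hab (by rw [hpm]; ring)
      have z2 := hnn a ((X - C b) * ((X - C b) * mp c R)) hpm
      have z3 := hnn b ((X - C a) * ((X - C a) * mp c R)) (by rw [hpm]; ring)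
      have hc2 : R.card + 4 = m + 2 := by
        rw [← hcard, hR]; simp
      obtain ⟨m', rfl⟩ : ∃ m', m = m' + 2 := ⟨m - 2, by omega⟩
      have htt := TT hS (mp_ne_zero hc0 R) (mp_splits c R) (by rw [mp_natDegree hc0]; omega) hτ
      have e2 : ∀ x y : ℝ, dg l ((X - C x) * ((X - C y) * mp c R)) =
          dg l (X ^ 2 * mp c R) - C (x + y) * dg l (X * mp c R) + C (x * y) * dg l (mp c R) := by
        intro x y
        rw [← dg_C_mul, ← dg_C_mul, ← dg_sub, ← dg_add]
        congr 1
        simp only [C_mul, C_add]
        ring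
      rw [e2] at z1 z2 z3
      simp only [eval_sub, eval_add, eval_mul, eval_C] at z1 z2 z3
      set α := (dg l (mp c R)).eval τ
      set β := (dg l (X * mp c R)).eval τ
      set γ := (dg l (X ^ 2 * mp c R)).eval τ
      set F := (dg l p).derivative.derivative.eval τ
      have hF2 : 0 < F ^ 2 := by positivity
      have hprod : 0 ≤ (γ - (b + b) * β + b * b * α) * (γ - (a + a) * β + a * a * α) := by
        have h5 := mul_nonneg z2 z3
        have h6 : (γ - (b + b) * β + b * b * α) * F * ((γ - (a + a) * β + a * a * α) * F) =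
            F ^ 2 * ((γ - (b + b) * β + b * b * α) * (γ - (a + a) * β + a * a * α)) := by ring
        rw [h6] at h5
        exact nonneg_of_mul_nonneg_right h5 hF2
      have hid : (γ - (b + b) * β + b * b * α) * (γ - (a + a) * β + a * a * α) =
          (γ - (a + b) * β + a * b * α) ^ 2 + (α * γ - β ^ 2) * (a - b) ^ 2 := by ring
      rw [hid, z1] at hprod
      have hab2 : 0 < (a - b) ^ 2 := by
        have : a - b ≠ 0 := sub_ne_zero.2 hab
        positivity
      nlinarith
    · -- the extremal case
      have hsum : (m + 1 : ℝ) * a + b = 0 := by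
        have h5 := mp_coeff_pred c p.roots (m + 1) hcard
        rw [← hpm, hpc, hR, Multiset.sum_cons, Multiset.sum_replicate, nsmul_eq_mul] at h5
        push_cast at h5
        rcases mul_eq_zero.1 h5.symm with h | h
        · exact absurd (neg_eq_zero.1 h) hc0
        · linarith
      have hpa : p = C c * ((X - C a) ^ (m + 1) * (X - C b)) := by
        rw [hR] at hpm
        rw [hpm, mp_cons]
        unfold mp
        rw [Multiset.map_replicate, Multiset.prod_replicate]
        ring
      by_cases ha0 : a = 0
      · have hb0 : b = 0 := by rw [ha0] at hsum; linarith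
        rw [hpa, ha0, hb0, C_0, sub_zero, dg_C_mul, ← pow_succ] at h0
        have e1 : dg l (X ^ (m + 1 + 1)) = C (l (m + 2)) * X ^ (m + 2) := by
          ext j
          rw [coeff_dg, coeff_C_mul, coeff_X_pow]
          split_ifs with hj
          · rw [hj]
          · simp
        rw [e1] at h0
        simp only [eval_mul, eval_C, eval_pow, eval_X] at h0
        have : c * (l (m + 2) * τ ^ (m + 2)) ≠ 0 := by positivity
        exact this h0
      · have hbe : b = -((m + 1 : ℝ) * a) := by linarith
        refine scale_double (k := c * a ^ (m + 2)) (b := a⁻¹) (by positivity) (by positivity)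
          (r := dg l (qq (m + 1))) (f := dg l p) ?_ hτ hr h0 h1
        rw [dg_comp, ← dg_C_mul, hpa]
        congr 1
        apply Polynomial.funext
        intro x
        unfold qq
        simp only [eval_mul, eval_C, eval_pow, eval_sub, eval_add, eval_X, eval_comp]
        rw [hbe]
        push_cast
        have e5 : x - a = a * (a⁻¹ * x - 1) := by field_simp
        have e6 : x - -((m + 1 : ℝ) * a) = a * (a⁻¹ * x + (m + 1)) := by field_simp; ring
        rw [e5, e6, mul_pow]
        ring

end Pool.Agent.H47.RR
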