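import Mathlib
import Pool.Agent.H47.RR.LemD

set_option autoImplicit false
set_option linter.unusedSectionVars false
set_option linter.unusedSimpArgs false
set_option linter.unusedVariables false

namespace Pool.Agent.H47.RR

open Polynomial Set Filter Topology

/-! ### the base operator -/

/-- symbol of the base operator -/
noncomputable def l0 (n k : ℕ) : ℝ := ((k : ℝ) + 1) ^ n

theorem dg_l0_succ (n : ℕ) (p : ℝ[X]) : dg (l0 (n + 1)) p = derivative (X * dg (l0 n) p) := by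
  ext k
  rw [coeff_derivative, coeff_X_mul, coeff_dg, coeff_dg]
  unfold l0
  ring

theorem dg_l0_zero (p : ℝ[X]) : dg (l0 0) p = p := by
  ext k
  rw [coeff_dg]
  simp [l0]

theorem l0_pos (n k : ℕ) : 0 < l0 n k := by unfold l0; positivity

theorem base_step {p : ℝ[X]} (hp0 : p ≠ 0) (hp : p.Splits) :
    derivative (X * p) ≠ 0 ∧ (derivative (X * p)).Splits ∧ ∀ τ : ℝ, τ ≠ 0 →
      2 ≤ (derivative (X * p)).rootMultiplicity τ →
      (derivative (X * p)).rootMultiplicity τ + 1 ≤ p.rootMultiplicity τ := by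
  have hXp : (X * p).natDegree ≠ 0 := by rw [natDegree_X_mul hp0]; omega
  have hXp0 : X * p ≠ 0 := mul_ne_zero X_ne_zero hp0
  have hs : (X * p).Splits := Splits.X.mul hp
  have hd0 : derivative (X * p) ≠ 0 := fun h => hXp (Polynomial.derivative_eq_zero.1 h)
  refine ⟨hd0, splits_derivative hs, ?_⟩
  intro τ hτ h2
  obtain ⟨h4, h3⟩ := (one_lt_rootMultiplicity_iff_isRoot hd0 (t := τ)).1 (by omega)
  have h5 : (X * p).IsRoot τ := root_of_double hs hXp h4 h3
  have h6 := derivative_rootMultiplicity_of_root h5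
  have h7 : (X * p).rootMultiplicity τ = p.rootMultiplicity τ := by
    rw [rootMultiplicity_mul hXp0]
    have : (X : ℝ[X]).rootMultiplicity τ = 0 := by
      apply rootMultiplicity_eq_zero
      simp [hτ]
    rw [this, zero_add]
  omega

theorem base_mult (n : ℕ) {p : ℝ[X]} (hp0 : p ≠ 0) (hp : p.Splits) :
    dg (l0 n) p ≠ 0 ∧ (dg (l0 n) p).Splits ∧ ∀ τ : ℝ, τ ≠ 0 →
      2 ≤ (dg (l0 n) p).rootMultiplicity τ →
      (dg (l0 n) p).rootMultiplicity τ + n ≤ p.rootMultiplicity τ := by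
  induction n with
  | zero => rw [dg_l0_zero]; exact ⟨hp0, hp, fun τ _ h => by omega⟩
  | succ n ih =>
    obtain ⟨i1, i2, i3⟩ := ih
    rw [dg_l0_succ]
    obtain ⟨j1, j2, j3⟩ := base_step i1 i2
    refine ⟨j1, j2, fun τ hτ h2 => ?_⟩
    have h3 := j3 τ hτ h2
    have h4 := i3 τ hτ (by omega)
    omega

theorem base_str (d : ℕ) : Str d ∅ (l0 d) := by
  intro p hp hp0 hps
  obtain ⟨h1, h2, h3⟩ := base_mult d hp0 hps
  refine ⟨h1, h2, fun τ hτ h4 h5 => ?_⟩
  have h6 : 1 < (dg (l0 d) p).rootMultiplicity τ :=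
    (one_lt_rootMultiplicity_iff_isRoot h1).2 ⟨h4, h5⟩
  have h7 := h3 τ hτ h6
  have h8 : p.rootMultiplicity τ ≤ p.natDegree := by
    rw [← count_roots]
    exact (Multiset.count_le_card _ _).trans (card_roots' p)
  have := hp.1
  omega

theorem Str.mono {d : ℕ} {Z : Set ℕ} {l : ℕ → ℝ} (h : Str d ∅ l) : Str d Z l :=
  fun p hp => h p (inW_empty hp.1)

theorem Str.congr {d : ℕ} {Z : Set ℕ} {l l' : ℕ → ℝ} (h : Str d Z l) {c : ℝ} (hc : c ≠ 0)
    (hl : ∀ k ≤ d, k ∉ Z → l' k = c * l k) : Str d Z l' := by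
  intro p hp hp0 hps
  have he : dg l' p = C c * dg l p := by
    ext k
    rw [coeff_dg, coeff_C_mul, coeff_dg]
    by_cases hk : k ≤ d
    · by_cases hkZ : k ∈ Z
      · rw [hp.2 k hkZ]; ring
      · rw [hl k hk hkZ]; ring
    · rw [coeff_eq_zero_of_natDegree_lt (by have := hp.1; omega)]; ring
  obtain ⟨h1, h2, h3⟩ := h p hp hp0 hps
  rw [he]
  refine ⟨mul_ne_zero (C_ne_zero.2 hc) h1, h2.C_mul c, fun τ hτ h4 => ?_⟩
  rw [derivative_C_mul, eval_mul, eval_C]
  rw [eval_mul, eval_C] at h4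
  have h5 : (dg l p).eval τ = 0 := by
    rcases mul_eq_zero.1 h4 with h | h
    · exact absurd h hc
    · exact h
  exact mul_ne_zero hc (h3 τ hτ h5)

/-! ### the classes -/

/-- `n` distinct positive roots -/
def HC (n : ℕ) (J : ℝ[X]) : Prop := ∃ c : ℝ, c ≠ 0 ∧ ∃ y : Fin n → ℝ, StrictMono y ∧
  (∀ i, 0 < y i) ∧ J = C c * ∏ i, (X - C (y i))

/-- `m` distinct positive roots and one root making the trace zero -/
def HD (m : ℕ) (r : ℝ[X]) : Prop := ∃ c : ℝ, c ≠ 0 ∧ ∃ y : Fin m → ℝ, StrictMono y ∧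
  (∀ i, 0 < y i) ∧ r = C c * ((∏ i, (X - C (y i))) * (X + C (∑ i, y i)))

theorem prod_eq_mp {n : ℕ} (c : ℝ) (y : Fin n → ℝ) :
    C c * ∏ i, (X - C (y i)) = mp c (Finset.univ.val.map y) := by
  unfold mp
  rw [Multiset.map_map]
  rfl

theorem HC.scale {n : ℕ} {J : ℝ[X]} (h : HC n J) {a : ℝ} (ha : a ≠ 0) : HC n (C a * J) := by
  obtain ⟨c, hc, y, h1, h2, h3⟩ := h
  exact ⟨a * c, mul_ne_zero ha hc, y, h1, h2, by rw [h3, C_mul]; ring⟩

theorem HD.scale {n : ℕ} {J : ℝ[X]} (h : HD n J) {a : ℝ} (ha : a ≠ 0) : HD n (C a * J) := by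
  obtain ⟨c, hc, y, h1, h2, h3⟩ := h
  exact ⟨a * c, mul_ne_zero ha hc, y, h1, h2, by rw [h3, C_mul]; ring⟩

/-- splitting off known roots -/
theorem exact_roots {m : ℕ} {z : Fin m → ℝ} (hz : StrictMono z) {P : ℝ[X]} (hP0 : P ≠ 0)
    (hPz : ∀ i, P.eval (z i) = 0) : (Finset.univ.val.map z) ≤ P.roots := by
  have hnd : (Finset.univ.val.map z).Nodup := Finset.univ.nodup.map hz.injective
  rw [Multiset.le_iff_subset hnd]
  intro a ha
  rw [Multiset.mem_map] at ha
  obtain ⟨i, -, rfl⟩ := ha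
  exact (mem_roots hP0).2 (hPz i)

/-- **Gap lemma** (Rolle). -/
theorem gap {m : ℕ} {y : Fin (m + 1) → ℝ} (hy : StrictMono y) (hpos : ∀ i, 0 < y i)
    {F F' : ℝ → ℝ} (hF : ∀ x, 0 < x → HasDerivAt F (F' x) x) (h0 : ∀ i, F (y i) = 0)
    {P : ℝ[X]} (hPF : ∀ x, 0 < x → F' x = 0 → P.eval x = 0) :
    ∃ z : Fin m → ℝ, StrictMono z ∧ (∀ i, 0 < z i) ∧ ∀ i, P.eval (z i) = 0 := by
  have key : ∀ i : Fin m, ∃ x, y i.castSucc < x ∧ x < y i.succ ∧ F' x = 0 := by
    intro i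
    have hlt : y i.castSucc < y i.succ := hy (Fin.castSucc_lt_succ)
    obtain ⟨x, hx, hx0⟩ := exists_hasDerivAt_eq_zero (f := F) (f' := F') hlt
      (fun x hx => (hF x (lt_of_lt_of_le (hpos _) hx.1)).continuousAt.continuousWithinAt)
      (by rw [h0, h0]) (fun x hx => hF x (lt_trans (hpos _) hx.1))
    exact ⟨x, hx.1, hx.2, hx0⟩
  choose z hz1 hz2 hz3 using key
  have hzpos : ∀ i, 0 < z i := fun i => lt_trans (hpos _) (hz1 i)
  refine ⟨z, ?_, hzpos, fun i => hPF _ (hzpos i) (hz3 i)⟩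
  intro i j hij
  have h1 : y i.succ ≤ y j.castSucc := by
    apply hy.monotone
    rw [Fin.le_def]
    simp only [Fin.val_succ, Fin.val_castSucc]
    have : (i : ℕ) < j := hij
    omega
  exact lt_trans (hz2 i) (lt_of_le_of_lt h1 (hz1 j))

theorem HC_of_roots {m : ℕ} {z : Fin m → ℝ} (hz : StrictMono z) (hpos : ∀ i, 0 < z i) {P : ℝ[X]}
    (hP0 : P ≠ 0) (hd : P.natDegree ≤ m) (hPz : ∀ i, P.eval (z i) = 0) : HC m P := by
  have h1 := exact_roots hz hP0 hPz
  have hcard : (Finset.univ.val.map z).card = m := by simp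
  have h2 : P.roots.card ≤ (Finset.univ.val.map z).card := by
    rw [hcard]; exact (card_roots' P).trans hd
  have h3 := Multiset.eq_of_le_of_card_le h1 h2
  have h4 : P.roots.card = P.natDegree := by
    have := card_roots' P
    rw [← h3] at this ⊢
    omega
  have hs : P.Splits := splits_iff_card_roots.2 h4
  refine ⟨P.leadingCoeff, leadingCoeff_ne_zero.2 hP0, z, hz, hpos, ?_⟩
  rw [prod_eq_mp, h3]
  exact eq_mp hs

theorem HD_of_roots {m : ℕ} {z : Fin m → ℝ} (hz : StrictMono z) (hpos : ∀ i, 0 < z i) {P : ℝ[X]}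
    (hd : P.natDegree = m + 1) (htr : P.coeff m = 0) (hPz : ∀ i, P.eval (z i) = 0)
    (hs : P.Splits) : HD m P := by
  have hP0 : P ≠ 0 := by rintro rfl; simp at hd
  have h1 := exact_roots hz hP0 hPz
  have hcard : (Finset.univ.val.map z).card = m := by simp
  have h4 : P.roots.card = m + 1 := by rw [← hd]; exact splits_iff_card_roots.1 hs
  obtain ⟨R, hR⟩ := Multiset.le_iff_exists_add.1 h1
  have hRc : R.card = 1 := by
    have := congrArg Multiset.card hR
    rw [Multiset.card_add, hcard, h4] at this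
    omega
  obtain ⟨w, hw⟩ := Multiset.card_eq_one.1 hRc
  have hc : P.leadingCoeff ≠ 0 := leadingCoeff_ne_zero.2 hP0
  have hPm : P = mp P.leadingCoeff P.roots := eq_mp hs
  have hsum : w = -∑ i, z i := by
    have h5 := mp_coeff_pred P.leadingCoeff P.roots m h4
    rw [← hPm, htr, hR, hw, Multiset.sum_add, Multiset.sum_singleton] at h5
    have h6 : (Finset.univ.val.map z).sum = ∑ i, z i := rfl
    rw [h6] at h5
    rcases mul_eq_zero.1 h5.symm with h | h
    · exact absurd (neg_eq_zero.1 h) hc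
    · linarith
  refine ⟨P.leadingCoeff, hc, z, hz, hpos, ?_⟩
  rw [hR, hw, add_comm, Multiset.singleton_add, mp_cons, ← prod_eq_mp, hsum] at hPm
  conv_lhs => rw [hPm]
  rw [C_neg]
  ring

end Pool.Agent.H47.RR
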