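import Mathlib
import Pool.Agent.H47.RR.Base

set_option autoImplicit false
set_option linter.unusedSectionVars false
set_option linter.unusedSimpArgs false
set_option linter.unusedVariables false

namespace Pool.Agent.H47.RR

open Polynomial Set Filter Topology

/-! ### elementary identities -/

theorem coeff_qn (n k : ℕ) : ((X - C (1:ℝ)) ^ n).coeff k = (-1) ^ (n - k) * (n.choose k : ℝ) := by
  have : (X - C (1:ℝ)) = X + C (-1) := by rw [C_neg]; ring
  rw [this, coeff_X_add_C_pow]

theorem coeff_qn_ne {n k : ℕ} (h : k ≤ n) : ((X - C (1:ℝ)) ^ n).coeff k ≠ 0 := by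
  rw [coeff_qn]
  have : 0 < n.choose k := Nat.choose_pos h
  positivity

theorem coeff_X_derivative (p : ℝ[X]) (k : ℕ) : (X * derivative p).coeff k = k * p.coeff k := by
  cases k with
  | zero => simp
  | succ k => rw [coeff_X_mul, coeff_derivative]; push_cast; ring

theorem der_qn (n : ℕ) : derivative ((X - C (1:ℝ)) ^ (n + 1)) = C ((n:ℝ) + 1) * (X - C 1) ^ n := by
  rw [derivative_X_sub_C_pow]
  simp

theorem eul_qn (n : ℕ) : C ((n:ℝ) + 1) * (X - C (1:ℝ)) ^ (n + 1) -
    X * derivative ((X - C (1:ℝ)) ^ (n + 1)) = C (-((n:ℝ) + 1)) * (X - C 1) ^ n := by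
  rw [der_qn, C_neg]
  simp only [C_1]
  ring

theorem der_qq (m : ℕ) : derivative (qq (m + 1)) = C ((m:ℝ) + 2) * qq m := by
  unfold qq
  rw [derivative_mul, der_qn]
  simp only [derivative_add, derivative_X, derivative_C]
  apply Polynomial.funext
  intro x
  simp only [eval_add, eval_mul, eval_pow, eval_sub, eval_X, eval_C, eval_one, eval_zero]
  push_cast
  ring

theorem eul_qq (m : ℕ) : C ((m:ℝ) + 2) * qq (m + 1) - X * derivative (qq (m + 1)) =
    C (-(((m:ℝ) + 2) * (m + 1))) * (X - C 1) ^ m := by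
  rw [der_qq]
  unfold qq
  apply Polynomial.funext
  intro x
  simp only [eval_add, eval_sub, eval_mul, eval_pow, eval_X, eval_C]
  push_cast
  ring

theorem qq_natDegree (m : ℕ) : (qq m).natDegree = m + 1 := by
  unfold qq
  have h1 : (X - C (1:ℝ)) ^ m ≠ 0 := pow_ne_zero _ (X_sub_C_ne_zero _)
  have h2 : (X + C (m:ℝ)) ≠ 0 := X_add_C_ne_zero _
  rw [natDegree_mul h1 h2, natDegree_pow, natDegree_X_sub_C, natDegree_X_add_C]
  ring

theorem qq_coeff_top (m : ℕ) : (qq m).coeff (m + 1) = 1 := by
  have h : (qq m).Monic := by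
    unfold qq
    exact ((monic_X_sub_C 1).pow m).mul (monic_X_add_C _)
  rw [← qq_natDegree m]
  exact h

theorem qq_coeff_mid (m : ℕ) : (qq m).coeff m = 0 := by
  cases m with
  | zero => unfold qq; simp
  | succ m =>
    have h := congrArg (fun p => p.coeff (m + 1)) (eul_qq m)
    simp only [coeff_sub, coeff_C_mul, coeff_X_derivative] at h
    rw [coeff_qn, Nat.choose_eq_zero_of_lt (by omega)] at h
    push_cast at h
    linarith

theorem qq_coeff_low {m k : ℕ} (hk : k ≤ m) : ((m:ℝ) + 2 - k) * (qq (m + 1)).coeff k =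
    -(((m:ℝ) + 2) * (m + 1)) * ((X - C (1:ℝ)) ^ m).coeff k := by
  have h := congrArg (fun p => p.coeff k) (eul_qq m)
  simp only [coeff_sub, coeff_C_mul, coeff_X_derivative] at h
  linarith

theorem qq_coeff_ne {m k : ℕ} (hk : k ≤ m + 2) (hk1 : k ≠ m + 1) : (qq (m + 1)).coeff k ≠ 0 := by
  by_cases h : k = m + 2
  · rw [h, qq_coeff_top]; exact one_ne_zero
  · intro h0
    have h1 := qq_coeff_low (m := m) (k := k) (by omega)
    rw [h0, mul_zero] at h1
    have h2 := coeff_qn_ne (n := m) (k := k) (by omega)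
    have h3 : (-(((m:ℝ) + 2) * (m + 1))) ≠ 0 := by
      have : 0 < ((m:ℝ) + 2) * (m + 1) := by positivity
      linarith
    exact (mul_ne_zero h3 h2) h1.symm

/-! ### consequences of HC, HD -/

theorem simple_of_nodup {P : ℝ[X]} (hP : P ≠ 0) (hn : P.roots.Nodup) {σ : ℝ}
    (h : P.eval σ = 0) : P.derivative.eval σ ≠ 0 := by
  intro h1
  have h2 : 1 < P.rootMultiplicity σ := (one_lt_rootMultiplicity_iff_isRoot hP).2 ⟨h, h1⟩
  have h3 := Multiset.nodup_iff_count_le_one.1 hn σ
  rw [count_roots] at h3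
  omega

theorem HC.facts {n : ℕ} {J : ℝ[X]} (h : HC n J) : J ≠ 0 ∧ J.natDegree = n ∧ J.coeff 0 ≠ 0 ∧
    J.Splits ∧ ∀ σ, J.eval σ = 0 → J.derivative.eval σ ≠ 0 := by
  obtain ⟨c, hc, y, hy, hpos, hJ⟩ := h
  rw [prod_eq_mp] at hJ
  have h0 : J ≠ 0 := by rw [hJ]; exact mp_ne_zero hc _
  refine ⟨h0, by rw [hJ, mp_natDegree hc]; simp, ?_, by rw [hJ]; exact mp_splits _ _, ?_⟩
  · rw [coeff_zero_eq_eval_zero]
    intro h1
    have h2 : (0:ℝ) ∈ J.roots := (mem_roots h0).2 h1
    rw [hJ, mp_roots hc, Multiset.mem_map] at h2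
    obtain ⟨i, -, hi⟩ := h2
    exact (hpos i).ne' hi
  · intro σ hσ
    apply simple_of_nodup h0 _ hσ
    rw [hJ, mp_roots hc]
    exact Finset.univ.nodup.map hy.injective

theorem HC_step {n : ℕ} {l : ℕ → ℝ} (h : HC (n + 1) (dg l ((X - C 1) ^ (n + 1)))) :
    HC n (dg l ((X - C 1) ^ n)) ∧ HC n (dg (fun k => l (k + 1)) ((X - C 1) ^ n)) := by
  obtain ⟨f1, f2, f3, f4, f5⟩ := h.facts
  obtain ⟨c, hc, y, hy, hpos, hJ⟩ := h
  set J := dg l ((X - C 1) ^ (n + 1)) with hJdef
  have hJy : ∀ i, J.eval (y i) = 0 := by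
    intro i
    rw [hJ, eval_mul, eval_prod]
    rw [Finset.prod_eq_zero (Finset.mem_univ i) (by simp)]
    simp
  have hn1 : ((n:ℝ) + 1) ≠ 0 := by positivity
  constructor
  · -- Euler part
    have hP : C ((n:ℝ) + 1) * J - X * derivative J = C (-((n:ℝ) + 1)) * dg l ((X - C 1) ^ n) := by
      rw [hJdef, ← dg_C_mul, ← dg_X_derivative, ← dg_sub, eul_qn, dg_C_mul]
    obtain ⟨z, hz, hzpos, hz0⟩ := gap (F := fun x => J.eval x / x ^ (n + 1))
      (F' := fun x => (J.derivative.eval x * x ^ (n + 1) -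
        J.eval x * (((n + 1 : ℕ) : ℝ) * x ^ n)) / (x ^ (n + 1)) ^ 2)
      (P := C ((n:ℝ) + 1) * J - X * derivative J) hy hpos
      (fun x hx => by
        have h1 := J.hasDerivAt x
        have h2 := hasDerivAt_pow (n + 1) x
        simp only [Nat.add_sub_cancel] at h2
        exact h1.div h2 (pow_ne_zero _ hx.ne'))
      (fun i => by simp only [hJy i, zero_div])
      (fun x hx h0 => by
        simp only [eval_sub, eval_mul, eval_C, eval_X]
        have hx2 : (x ^ (n + 1)) ^ 2 ≠ 0 := by positivity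
        rw [div_eq_zero_iff] at h0
        rcases h0 with h0 | h0
        · have hxn : x ^ n ≠ 0 := by positivity
          have : x ^ n * (((n:ℝ) + 1) * eval x J - x * eval x (derivative J)) = 0 := by
            push_cast at h0
            rw [pow_succ] at h0
            linarith
          rcases mul_eq_zero.1 this with h | h
          · exact absurd h hxn
          · exact h
        · exact absurd h0 hx2)
    have hHC : HC n (C ((n:ℝ) + 1) * J - X * derivative J) := by
      refine HC_of_roots hz hzpos ?_ ?_ hz0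
      · intro h0
        have := congrArg (fun p => p.coeff 0) h0
        simp only [coeff_sub, coeff_C_mul, coeff_X_derivative, coeff_zero] at this
        simp only [Nat.cast_zero, zero_mul, sub_zero] at this
        exact (mul_ne_zero hn1 f3) this
      · rw [natDegree_le_iff_coeff_eq_zero]
        intro N hN
        simp only [coeff_sub, coeff_C_mul, coeff_X_derivative]
        by_cases hN1 : N = n + 1
        · rw [hN1]; push_cast; ring
        · rw [coeff_eq_zero_of_natDegree_lt (p := J) (by omega)]; ring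
    rw [hP] at hHC
    have h3 := hHC.scale (a := (-((n:ℝ) + 1))⁻¹) (inv_ne_zero (neg_ne_zero.2 hn1))
    rwa [← mul_assoc, ← C_mul, inv_mul_cancel₀ (neg_ne_zero.2 hn1), C_1, one_mul] at h3
  · -- derivative part
    have hP : derivative J = C ((n:ℝ) + 1) * dg (fun k => l (k + 1)) ((X - C 1) ^ n) := by
      rw [hJdef, derivative_dg, der_qn, dg_C_mul]
    obtain ⟨z, hz, hzpos, hz0⟩ := gap (F := fun x => J.eval x) (F' := fun x => J.derivative.eval x)
      (P := derivative J) hy hpos (fun x _ => J.hasDerivAt x) hJy (fun x _ h => h)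
    have hHC : HC n (derivative J) := by
      refine HC_of_roots hz hzpos ?_ ?_ hz0
      · intro h0
        have := Polynomial.derivative_eq_zero.1 h0
        omega
      · have := natDegree_derivative_le J
        omega
    rw [hP] at hHC
    have h3 := hHC.scale (a := ((n:ℝ) + 1)⁻¹) (inv_ne_zero hn1)
    rwa [← mul_assoc, ← C_mul, inv_mul_cancel₀ hn1, C_1, one_mul] at h3

theorem HD.facts {m : ℕ} {r : ℝ[X]} (h : HD (m + 1) r) : r ≠ 0 ∧ r.natDegree = m + 2 ∧
    r.coeff 0 ≠ 0 ∧ r.coeff (m + 1) = 0 ∧ r.Splits ∧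
    ∀ σ, r.eval σ = 0 → r.derivative.eval σ ≠ 0 := by
  obtain ⟨c, hc, y, hy, hpos, hr⟩ := h
  have hS : 0 < ∑ i, y i := Finset.sum_pos (fun i _ => hpos i) ⟨0, Finset.mem_univ _⟩
  have hrm : r = mp c ((-∑ i, y i) ::ₘ Finset.univ.val.map y) := by
    rw [hr, mp_cons, ← prod_eq_mp, C_neg]; ring
  have h0 : r ≠ 0 := by rw [hrm]; exact mp_ne_zero hc _
  refine ⟨h0, by rw [hrm, mp_natDegree hc]; simp, ?_, ?_, by rw [hrm]; exact mp_splits _ _, ?_⟩
  · rw [coeff_zero_eq_eval_zero]
    intro h1
    have h2 : (0:ℝ) ∈ r.roots := (mem_roots h0).2 h1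
    rw [hrm, mp_roots hc, Multiset.mem_cons, Multiset.mem_map] at h2
    rcases h2 with h2 | ⟨i, -, hi⟩
    · linarith
    · exact (hpos i).ne' hi
  · rw [hrm, mp_coeff_pred _ _ _ (by simp), Multiset.sum_cons]
    have : (Finset.univ.val.map y).sum = ∑ i, y i := rfl
    rw [this]; ring
  · intro σ hσ
    apply simple_of_nodup h0 _ hσ
    rw [hrm, mp_roots hc, Multiset.nodup_cons]
    refine ⟨?_, Finset.univ.nodup.map hy.injective⟩
    rw [Multiset.mem_map]
    rintro ⟨i, -, hi⟩
    have := hpos i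
    linarith

theorem HD_step {m : ℕ} {l : ℕ → ℝ} (h : HD (m + 1) (dg l (qq (m + 1)))) :
    HC m (dg l ((X - C 1) ^ m)) ∧ HD m (dg (fun k => l (k + 1)) (qq m)) := by
  obtain ⟨f1, f2, f3, f4, f5, f6⟩ := h.facts
  obtain ⟨c, hc, y, hy, hpos, hr⟩ := h
  set r := dg l (qq (m + 1)) with hrdef
  have hry : ∀ i, r.eval (y i) = 0 := by
    intro i
    rw [hr, eval_mul, eval_mul, eval_prod]
    rw [Finset.prod_eq_zero (Finset.mem_univ i) (by simp)]
    simp
  have hm2 : ((m:ℝ) + 2) ≠ 0 := by positivity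
  constructor
  · have hP : C ((m:ℝ) + 2) * r - X * derivative r =
        C (-(((m:ℝ) + 2) * (m + 1))) * dg l ((X - C 1) ^ m) := by
      rw [hrdef, ← dg_C_mul, ← dg_X_derivative, ← dg_sub, eul_qq, dg_C_mul]
    obtain ⟨z, hz, hzpos, hz0⟩ := gap (F := fun x => r.eval x / x ^ (m + 2))
      (F' := fun x => (r.derivative.eval x * x ^ (m + 2) -
        r.eval x * (((m + 2 : ℕ) : ℝ) * x ^ (m + 1))) / (x ^ (m + 2)) ^ 2)
      (P := C ((m:ℝ) + 2) * r - X * derivative r) hy hpos
      (fun x hx => by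
        have h1 := r.hasDerivAt x
        have h2 := hasDerivAt_pow (m + 2) x
        have e : m + 2 - 1 = m + 1 := by omega
        rw [e] at h2
        exact h1.div h2 (pow_ne_zero _ hx.ne'))
      (fun i => by simp only [hry i, zero_div])
      (fun x hx h0 => by
        simp only [eval_sub, eval_mul, eval_C, eval_X]
        have hx2 : (x ^ (m + 2)) ^ 2 ≠ 0 := by positivity
        rw [div_eq_zero_iff] at h0
        rcases h0 with h0 | h0
        · have hxn : x ^ (m + 1) ≠ 0 := by positivity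
          have : x ^ (m + 1) * (((m:ℝ) + 2) * eval x r - x * eval x (derivative r)) = 0 := by
            push_cast at h0
            rw [pow_succ _ (m + 1)] at h0
            linarith
          rcases mul_eq_zero.1 this with h | h
          · exact absurd h hxn
          · exact h
        · exact absurd h0 hx2)
    have hHC : HC m (C ((m:ℝ) + 2) * r - X * derivative r) := by
      refine HC_of_roots hz hzpos ?_ ?_ hz0
      · intro h0
        have := congrArg (fun p => p.coeff 0) h0
        simp only [coeff_sub, coeff_C_mul, coeff_X_derivative, coeff_zero] at this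
        simp only [Nat.cast_zero, zero_mul, sub_zero] at this
        exact (mul_ne_zero hm2 f3) this
      · rw [natDegree_le_iff_coeff_eq_zero]
        intro N hN
        simp only [coeff_sub, coeff_C_mul, coeff_X_derivative]
        by_cases hN1 : N = m + 1
        · rw [hN1, f4]; ring
        · by_cases hN2 : N = m + 2
          · rw [hN2]; push_cast; ring
          · rw [coeff_eq_zero_of_natDegree_lt (p := r) (by omega)]; ring
    rw [hP] at hHC
    have hne : (-(((m:ℝ) + 2) * (m + 1))) ≠ 0 := by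
      have : 0 < ((m:ℝ) + 2) * (m + 1) := by positivity
      linarith
    have h3 := hHC.scale (a := (-(((m:ℝ) + 2) * (m + 1)))⁻¹) (inv_ne_zero hne)
    rwa [← mul_assoc, ← C_mul, inv_mul_cancel₀ hne, C_1, one_mul] at h3
  · have hP : derivative r = C ((m:ℝ) + 2) * dg (fun k => l (k + 1)) (qq m) := by
      rw [hrdef, derivative_dg, der_qq, dg_C_mul]
    obtain ⟨z, hz, hzpos, hz0⟩ := gap (F := fun x => r.eval x) (F' := fun x => r.derivative.eval x)
      (P := derivative r) hy hpos (fun x _ => r.hasDerivAt x) hry (fun x _ h => h)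
    have hHD : HD m (derivative r) := by
      refine HD_of_roots hz hzpos ?_ ?_ hz0 (splits_derivative f5)
      · apply le_antisymm
        · have := natDegree_derivative_le r
          omega
        · apply le_natDegree_of_ne_zero
          rw [coeff_derivative]
          have h1 : r.coeff (m + 1 + 1) ≠ 0 := by
            have : r.leadingCoeff ≠ 0 := leadingCoeff_ne_zero.2 f1
            rwa [leadingCoeff, f2] at this
          exact mul_ne_zero h1 (by positivity)
      · rw [coeff_derivative, f4, zero_mul]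
    rw [hP] at hHD
    have h3 := hHD.scale (a := ((m:ℝ) + 2)⁻¹) (inv_ne_zero hm2)
    rwa [← mul_assoc, ← C_mul, inv_mul_cancel₀ hm2, C_1, one_mul] at h3

end Pool.Agent.H47.RR
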