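import Mathlib
import Pool.Agent.H47.RR.Fam

set_option autoImplicit false
set_option linter.unusedSectionVars false
set_option linter.unusedSimpArgs false
set_option linter.unusedVariables false

namespace Pool.Agent.H47.RR

open Polynomial Set Filter Topology

/-! ### sorting and extraction -/

theorem sort_exists {n : ℕ} (R : Multiset ℝ) (hR : R.card = n) :
    ∃ y : Fin n → ℝ, Monotone y ∧ Finset.univ.val.map y = R := by
  subst hR
  have hlen : (R.sort (· ≤ ·)).length = R.card := Multiset.length_sort ..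
  refine ⟨fun i => (R.sort (· ≤ ·)).get (Fin.cast hlen.symm i), ?_, ?_⟩
  · intro i j hij
    rcases eq_or_lt_of_le hij with h | h
    · rw [h]
    · have hp := Multiset.pairwise_sort R (· ≤ ·)
      exact List.pairwise_iff_get.1 hp (Fin.cast hlen.symm i) (Fin.cast hlen.symm j) h
  · rw [Fin.univ_val_map]
    have : List.ofFn (fun i : Fin R.card => (R.sort (· ≤ ·)).get (Fin.cast hlen.symm i)) =
        R.sort (· ≤ ·) := by
      apply List.ext_get
      · simp
      · intro k h1 h2
        simp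
    rw [this, Multiset.sort_eq]

theorem sort_strict {n : ℕ} {R : Multiset ℝ} (hR : R.card = n) (hn : R.Nodup) :
    ∃ y : Fin n → ℝ, StrictMono y ∧ Finset.univ.val.map y = R := by
  obtain ⟨y, hy, hyR⟩ := sort_exists R hR
  refine ⟨y, ?_, hyR⟩
  apply hy.strictMono_of_injective
  rw [← hyR] at hn
  intro i j hij
  have := (Multiset.nodup_map_iff_inj_on Finset.univ.nodup).1 hn
  exact this i (Finset.mem_univ_val i) j (Finset.mem_univ_val j) hij

theorem nodup_of_simple {J : ℝ[X]} (hJ : J ≠ 0)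
    (h : ∀ σ, J.eval σ = 0 → J.derivative.eval σ ≠ 0) : J.roots.Nodup := by
  rw [Multiset.nodup_iff_count_le_one]
  intro a
  rw [count_roots]
  by_contra hcon
  push Not at hcon
  obtain ⟨h1, h2⟩ := (one_lt_rootMultiplicity_iff_isRoot hJ).1 hcon
  exact h a h1 h2

theorem HC_extract {n : ℕ} {J : ℝ[X]} (h0 : J ≠ 0) (hs : J.Splits) (hd : J.natDegree = n)
    (h : ∀ σ, σ ≠ 0 → J.eval σ = 0 → J.derivative.eval σ ≠ 0) (hz : J.eval 0 ≠ 0)
    (hneg : ∀ x, x < 0 → J.eval x ≠ 0) : HC n J := by
  have hpos : ∀ a ∈ J.roots, 0 < a := by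
    intro a ha
    have ha0 : J.eval a = 0 := (mem_roots h0).1 ha
    rcases lt_trichotomy a 0 with h1 | h1 | h1
    · exact absurd ha0 (hneg a h1)
    · rw [h1] at ha0; exact absurd ha0 hz
    · exact h1
  have hnd : J.roots.Nodup := nodup_of_simple h0 (fun σ hσ => h σ (fun h1 => hz (h1 ▸ hσ)) hσ)
  have hcard : J.roots.card = n := by rw [← hd]; exact splits_iff_card_roots.1 hs
  obtain ⟨y, hy, hyR⟩ := sort_strict hcard hnd
  have hyr : ∀ i, y i ∈ J.roots := fun i => by
    rw [← hyR]; exact Multiset.mem_map_of_mem y (Finset.mem_univ_val i)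
  exact HC_of_roots hy (fun i => hpos _ (hyr i)) h0 hd.le (fun i => (mem_roots h0).1 (hyr i))

theorem HD_extract {m : ℕ} {r : ℝ[X]} (h0 : r ≠ 0) (hs : r.Splits) (hd : r.natDegree = m + 2)
    (htr : r.coeff (m + 1) = 0)
    (h : ∀ σ, σ ≠ 0 → r.eval σ = 0 → r.derivative.eval σ ≠ 0) (hz : r.eval 0 ≠ 0)
    (hneg : ∀ x y, x < 0 → y < 0 → r.eval x = 0 → r.eval y = 0 → x = y) : HD (m + 1) r := by
  have hnd : r.roots.Nodup := nodup_of_simple h0 (fun σ hσ => h σ (fun h1 => hz (h1 ▸ hσ)) hσ)
  have hcard : r.roots.card = m + 2 := by rw [← hd]; exact splits_iff_card_roots.1 hs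
  have hc : r.leadingCoeff ≠ 0 := leadingCoeff_ne_zero.2 h0
  have hsum : r.roots.sum = 0 := by
    have h5 := mp_coeff_pred r.leadingCoeff r.roots (m + 1) hcard
    rw [← eq_mp hs, htr] at h5
    rcases mul_eq_zero.1 h5.symm with h | h
    · exact absurd (neg_eq_zero.1 h) hc
    · exact h
  have hroot : ∀ a ∈ r.roots, r.eval a = 0 := fun a ha => (mem_roots h0).1 ha
  have hne : ∀ a ∈ r.roots, a ≠ 0 := fun a ha h1 => hz (h1 ▸ hroot a ha)
  have hex : ∃ w ∈ r.roots, w < 0 := by
    by_contra hcon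
    push Not at hcon
    obtain ⟨a, ha⟩ := Multiset.exists_mem_of_ne_zero (show r.roots ≠ 0 by
      intro h; rw [h] at hcard; simp at hcard)
    have h1 : a ≤ r.roots.sum := Multiset.single_le_sum hcon a ha
    have h2 : 0 < a := lt_of_le_of_ne (hcon a ha) (hne a ha).symm
    linarith
  obtain ⟨w, hw, hw0⟩ := hex
  obtain ⟨R, hR⟩ := Multiset.exists_cons_of_mem hw
  rw [hR, Multiset.nodup_cons] at hnd
  have hRc : R.card = m + 1 := by rw [hR] at hcard; simpa using hcard
  obtain ⟨y, hy, hyR⟩ := sort_strict hRc hnd.2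
  have hyR' : ∀ i, y i ∈ R := fun i => by
    rw [← hyR]; exact Multiset.mem_map_of_mem y (Finset.mem_univ_val i)
  have hyr : ∀ i, y i ∈ r.roots := fun i => by
    rw [hR]; exact Multiset.mem_cons_of_mem (hyR' i)
  have hpos : ∀ i, 0 < y i := by
    intro i
    rcases lt_trichotomy (y i) 0 with h1 | h1 | h1
    · exfalso
      have := hneg (y i) w h1 hw0 (hroot _ (hyr i)) (hroot w hw)
      rw [← this] at hnd
      exact hnd.1 (hyR' i)
    · exact absurd h1 (hne _ (hyr i))
    · exact h1
  exact HD_of_roots hy hpos hd htr (fun i => hroot _ (hyr i)) hs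

/-! ### sign considerations on the negative axis -/

theorem altsign {P : ℝ[X]} (h : ∀ k, 0 ≤ (-1) ^ k * P.coeff k) (hP : P ≠ 0) {x : ℝ} (hx : x < 0) :
    0 < P.eval x := by
  rw [eval_eq_sum_range]
  have e : ∀ k, P.coeff k * x ^ k = ((-1) ^ k * P.coeff k) * (-x) ^ k := by
    intro k
    have : (-x) ^ k = (-1) ^ k * x ^ k := by rw [neg_pow]
    rw [this]
    have h1 : ((-1:ℝ) ^ k) * (-1) ^ k = 1 := by rw [← mul_pow]; simp
    calc P.coeff k * x ^ k = ((-1:ℝ) ^ k * (-1) ^ k) * (P.coeff k * x ^ k) := by rw [h1, one_mul]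
      _ = _ := by ring
  simp_rw [e]
  apply Finset.sum_pos'
  · intro k _
    exact mul_nonneg (h k) (pow_nonneg (by linarith) _)
  · refine ⟨P.natDegree, Finset.self_mem_range_succ _, ?_⟩
    apply mul_pos _ (pow_pos (by linarith) _)
    apply lt_of_le_of_ne (h _)
    have h1 : P.coeff P.natDegree ≠ 0 := leadingCoeff_ne_zero.2 hP
    have : (-1:ℝ) ^ P.natDegree ≠ 0 := by positivity
    exact (mul_ne_zero this h1).symm

theorem neg_ne {m : ℕ} {l : ℕ → ℝ} (hl : ∀ k ≤ m, 0 ≤ l k) (hne : ∃ k ≤ m, l k ≠ 0) {x : ℝ}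
    (hx : x < 0) : (dg l ((X - C 1) ^ m)).eval x ≠ 0 := by
  have h1 : 0 < (C ((-1:ℝ) ^ m) * dg l ((X - C 1) ^ m)).eval x := by
    apply altsign _ _ hx
    · intro k
      rw [coeff_C_mul, coeff_dg, coeff_qn]
      by_cases hk : k ≤ m
      · have e : (-1:ℝ) ^ k * ((-1) ^ m * (l k * ((-1) ^ (m - k) * (m.choose k : ℝ)))) =
            ((-1:ℝ) ^ k * (-1) ^ (m - k) * (-1) ^ m) * (l k * (m.choose k : ℝ)) := by ring
        rw [e, ← pow_add, ← pow_add]
        have : k + (m - k) + m = 2 * m := by omega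
        rw [this, pow_mul]
        have := hl k hk
        simp only [even_two, Even.neg_pow, one_pow, one_mul]
        positivity
      · rw [Nat.choose_eq_zero_of_lt (by omega)]; simp
    · apply mul_ne_zero
      · exact C_ne_zero.2 (by positivity)
      · intro h0
        obtain ⟨k, hk, hk0⟩ := hne
        have := congrArg (fun p => p.coeff k) h0
        simp only [coeff_dg, coeff_zero] at this
        exact (mul_ne_zero hk0 (coeff_qn_ne hk)) this
  rw [eval_mul, eval_C] at h1
  intro h2
  rw [h2, mul_zero] at h1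
  exact lt_irrefl _ h1

theorem one_neg {m : ℕ} {l : ℕ → ℝ} (hl : ∀ k ≤ m, 0 ≤ l k) (hne : ∃ k ≤ m, l k ≠ 0) {x y : ℝ}
    (hx : x < 0) (hy : y < 0) (hx0 : (dg l (qq (m + 1))).eval x = 0)
    (hy0 : (dg l (qq (m + 1))).eval y = 0) : x = y := by
  wlog hxy : x < y generalizing x y
  · rcases lt_trichotomy x y with h | h | h
    · exact this hx hy hx0 hy0 h
    · exact h
    · exact (this hy hx hy0 hx0 h).symm
  exfalso
  set r := dg l (qq (m + 1)) with hrdef
  have hP : C ((m:ℝ) + 2) * r - X * derivative r =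
        C (-(((m:ℝ) + 2) * (m + 1))) * dg l ((X - C 1) ^ m) := by
      rw [hrdef, ← dg_C_mul, ← dg_X_derivative, ← dg_sub, eul_qq, dg_C_mul]
  have hder : ∀ x : ℝ, x < 0 → HasDerivAt (fun x => r.eval x / x ^ (m + 2))
      ((r.derivative.eval x * x ^ (m + 2) -
        r.eval x * (((m + 2 : ℕ) : ℝ) * x ^ (m + 1))) / (x ^ (m + 2)) ^ 2) x := by
    intro x hx
    have h1 := r.hasDerivAt x
    have h2 := hasDerivAt_pow (m + 2) x
    have e : m + 2 - 1 = m + 1 := by omega
    rw [e] at h2
    exact h1.div h2 (pow_ne_zero _ hx.ne)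
  obtain ⟨w, hw, hw0⟩ := exists_hasDerivAt_eq_zero (f := fun x => r.eval x / x ^ (m + 2))
    (f' := fun x => (r.derivative.eval x * x ^ (m + 2) -
        r.eval x * (((m + 2 : ℕ) : ℝ) * x ^ (m + 1))) / (x ^ (m + 2)) ^ 2) hxy
    (fun z hz => (hder z (lt_of_le_of_lt hz.2 hy)).continuousAt.continuousWithinAt)
    (by simp only [hx0, hy0, zero_div]) (fun z hz => hder z (lt_trans hz.2 hy))
  have hwneg : w < 0 := lt_trans hw.2 hy
  have hw2 : (x ^ (m + 1)) ≠ 0 := pow_ne_zero _ hx.ne
  have hw3 : w ^ (m + 1) ≠ 0 := pow_ne_zero _ hwneg.ne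
  have hw4 : (w ^ (m + 2)) ^ 2 ≠ 0 := pow_ne_zero _ (pow_ne_zero _ hwneg.ne)
  have hPw : (C ((m:ℝ) + 2) * r - X * derivative r).eval w = 0 := by
    simp only [eval_sub, eval_mul, eval_C, eval_X]
    rw [div_eq_zero_iff] at hw0
    rcases hw0 with h0 | h0
    · have : w ^ (m + 1) * (((m:ℝ) + 2) * eval w r - w * eval w (derivative r)) = 0 := by
        push_cast at h0
        rw [pow_succ _ (m + 1)] at h0
        linarith
      rcases mul_eq_zero.1 this with h | h
      · exact absurd h hw3
      · exact h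
    · exact absurd h0 hw4
  rw [hP, eval_mul, eval_C] at hPw
  have hne2 : (-(((m:ℝ) + 2) * (m + 1))) ≠ 0 := by
    have : 0 < ((m:ℝ) + 2) * (m + 1) := by positivity
    linarith
  rcases mul_eq_zero.1 hPw with h | h
  · exact hne2 h
  · exact neg_ne hl hne hwneg h

/-! ### the base polynomials -/

theorem base_HC (n N : ℕ) (hN : n ≤ N) : HC n (dg (l0 N) ((X - C 1) ^ n)) := by
  have hstr := base_str N
  have hq0 : (X - C (1:ℝ)) ^ n ≠ 0 := pow_ne_zero _ (X_sub_C_ne_zero _)
  obtain ⟨h1, h2, h3⟩ := hstr _ (inW_empty (p := (X - C (1:ℝ)) ^ n) (by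
    rw [natDegree_pow, natDegree_X_sub_C, mul_one]; exact hN)) hq0 ((Splits.X_sub_C _).pow _)
  refine HC_extract h1 h2 ?_ h3 ?_ ?_
  · apply le_antisymm
    · refine (natDegree_dg_le _ _).trans ?_
      rw [natDegree_pow, natDegree_X_sub_C, mul_one]
    · apply le_natDegree_of_ne_zero
      rw [coeff_dg]
      exact mul_ne_zero (l0_pos N n).ne' (coeff_qn_ne le_rfl)
  · rw [← coeff_zero_eq_eval_zero, coeff_dg]
    exact mul_ne_zero (l0_pos N 0).ne' (coeff_qn_ne (Nat.zero_le _))
  · intro x hx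
    exact neg_ne (fun k _ => (l0_pos N k).le) ⟨0, Nat.zero_le _, (l0_pos N 0).ne'⟩ hx

theorem qq_splits (m : ℕ) : (qq m).Splits :=
  ((Splits.X_sub_C _).pow _).mul (Splits.X_add_C _)

theorem base_HD (m : ℕ) : HD (m + 1) (dg (l0 (m + 2)) (qq (m + 1))) := by
  have hstr := base_str (m + 2)
  have hq0 : qq (m + 1) ≠ 0 := by
    intro h
    have := qq_natDegree (m + 1)
    rw [h] at this
    simp at this
  obtain ⟨h1, h2, h3⟩ := hstr _ (inW_empty (p := qq (m + 1)) (by rw [qq_natDegree])) hq0
    (qq_splits _)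
  refine HD_extract h1 h2 ?_ ?_ h3 ?_ ?_
  · apply le_antisymm
    · refine (natDegree_dg_le _ _).trans ?_
      rw [qq_natDegree]
    · apply le_natDegree_of_ne_zero
      rw [coeff_dg, qq_coeff_top]
      exact mul_ne_zero (l0_pos _ _).ne' one_ne_zero
  · rw [coeff_dg, qq_coeff_mid, mul_zero]
  · rw [← coeff_zero_eq_eval_zero, coeff_dg]
    exact mul_ne_zero (l0_pos _ 0).ne' (qq_coeff_ne (by omega) (by omega))
  · intro x y hx hy hx0 hy0
    exact one_neg (fun k _ => (l0_pos _ k).le) ⟨0, Nat.zero_le _, (l0_pos _ 0).ne'⟩ hx hy hx0 hy0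

/-! ### paths of polynomials -/

/-- coefficientwise continuity -/
def CCt (P : ℝ → ℝ[X]) : Prop := ∀ k, Continuous (fun s => (P s).coeff k)

theorem CCt.mul {P Q : ℝ → ℝ[X]} (hP : CCt P) (hQ : CCt Q) : CCt (fun s => P s * Q s) := by
  intro k
  simp only [coeff_mul]
  exact continuous_finsetSum _ (fun x _ => (hP x.1).mul (hQ x.2))

theorem CCt.const (p : ℝ[X]) : CCt (fun _ => p) := fun k => continuous_const

theorem CCt.X_sub_C {f : ℝ → ℝ} (hf : Continuous f) : CCt (fun s => X - C (f s)) := by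
  intro k
  simp only [coeff_sub, coeff_C]
  split_ifs with h
  · exact continuous_const.sub hf
  · exact continuous_const

theorem CCt.X_add_C {f : ℝ → ℝ} (hf : Continuous f) : CCt (fun s => X + C (f s)) := by
  intro k
  simp only [coeff_add, coeff_C]
  split_ifs with h
  · exact continuous_const.add hf
  · exact continuous_const

theorem CCt.prod {n : ℕ} {P : Fin n → ℝ → ℝ[X]} (hP : ∀ i, CCt (P i)) :
    CCt (fun s => ∏ i, P i s) := by
  classical
  have : ∀ S : Finset (Fin n), CCt (fun s => ∏ i ∈ S, P i s) := by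
    intro S
    induction S using Finset.induction with
    | empty => simp only [Finset.prod_empty]; exact CCt.const 1
    | insert a S ha ih =>
      simp only [Finset.prod_insert ha]
      exact (hP a).mul ih
  exact this Finset.univ

/-- the symbols along a path -/
noncomputable def pathl (q : ℝ[X]) (P : ℝ → ℝ[X]) (s : ℝ) (k : ℕ) : ℝ := (P s).coeff k / q.coeff k

theorem dg_pathl {q : ℝ[X]} {P : ℝ → ℝ[X]} {s : ℝ} (h : ∀ k, q.coeff k = 0 → (P s).coeff k = 0) :
    dg (pathl q P s) q = P s := by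
  ext k
  rw [coeff_dg]
  unfold pathl
  by_cases hk : q.coeff k = 0
  · rw [hk, h k hk]; simp
  · rw [div_mul_cancel₀ _ hk]

theorem cont_pathl {q : ℝ[X]} {P : ℝ → ℝ[X]} (h : CCt P) (k : ℕ) :
    Continuous (fun s => pathl q P s k) := (h k).div_const _

/-- **Theorem C** -/
theorem C_family (n : ℕ) : ∀ l : ℕ → ℝ, HC n (dg l ((X - C 1) ^ n)) → Str n ∅ l := by
  induction n with
  | zero =>
    intro l h
    obtain ⟨f1, f2, f3, -, -⟩ := h.facts
    have hl : l 0 ≠ 0 := by
      intro h0
      rw [coeff_dg, h0, zero_mul] at f3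
      exact f3 rfl
    intro p hp hp0 _
    have hpC : p = C (p.coeff 0) := eq_C_of_natDegree_le_zero hp.1
    have ha : p.coeff 0 ≠ 0 := by
      intro h0
      rw [h0, C_0] at hpC
      exact hp0 hpC
    have he : dg l p = C (l 0 * p.coeff 0) := by
      ext k
      rw [coeff_dg, coeff_C]
      split_ifs with hk
      · rw [hk]
      · rw [coeff_eq_zero_of_natDegree_lt (by have := hp.1; omega), mul_zero]
    have hne : l 0 * p.coeff 0 ≠ 0 := mul_ne_zero hl ha
    rw [he]
    refine ⟨C_ne_zero.2 hne, Splits.C _, fun τ _ h0 => ?_⟩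
    rw [eval_C] at h0
    exact absurd h0 hne
  | succ n ih =>
    intro l h
    obtain ⟨c, hc, y, hy, hpos, hJ⟩ := h
    obtain ⟨c0, hc0, y0, hy0, hpos0, hJ0⟩ := base_HC (n + 1) (n + 1) le_rfl
    set P : ℝ → ℝ[X] := fun s => ∏ i, (X - C ((1 - s) * y0 i + s * y i)) with hPdef
    have hPc : CCt P := CCt.prod (fun i => CCt.X_sub_C (by fun_prop))
    have hPHC : ∀ s ∈ Icc (0:ℝ) 1, HC (n + 1) (P s) := by
      intro s hs
      refine ⟨1, one_ne_zero, fun i => (1 - s) * y0 i + s * y i, ?_, ?_, by simp [hPdef]⟩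
      · intro i j hij
        have h1 := hy hij
        have h2 := hy0 hij
        simp only
        rcases eq_or_lt_of_le hs.1 with h | h
        · rw [← h]; linarith
        · have h3 : s * y i < s * y j := mul_lt_mul_of_pos_left h1 h
          have h4 : (1 - s) * y0 i ≤ (1 - s) * y0 j :=
            mul_le_mul_of_nonneg_left h2.le (by linarith [hs.2])
          linarith
      · intro i
        have h1 := hpos i
        have h2 := hpos0 i
        rcases eq_or_lt_of_le hs.1 with h | h
        · rw [← h]; linarith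
        · have h3 : 0 < s * y i := mul_pos h h1
          have h4 : 0 ≤ (1 - s) * y0 i := mul_nonneg (by linarith [hs.2]) h2.le
          linarith
    have hq : ∀ s : ℝ, ∀ k, ((X - C (1:ℝ)) ^ (n + 1)).coeff k = 0 → (P s).coeff k = 0 := by
      intro s k hk
      have hkn : n + 1 < k := by
        by_contra hcon
        push Not at hcon
        exact coeff_qn_ne hcon hk
      apply coeff_eq_zero_of_natDegree_lt
      refine lt_of_le_of_lt ?_ hkn
      refine (natDegree_prod_le _ _).trans ?_
      simp only [natDegree_X_sub_C]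
      simp
    have hstr : Str (n + 1) ∅ (pathl ((X - C 1) ^ (n + 1)) P 1) := by
      apply continuity (cont_pathl hPc)
      · refine (base_str (n + 1)).congr (c := c0⁻¹) (inv_ne_zero hc0) (fun k hk _ => ?_)
        unfold pathl
        have h1 : P 0 = C c0⁻¹ * dg (l0 (n + 1)) ((X - C 1) ^ (n + 1)) := by
          rw [hJ0, ← mul_assoc, ← C_mul, inv_mul_cancel₀ hc0, C_1, one_mul]
          simp [hPdef]
        rw [h1, coeff_C_mul, coeff_dg]
        have h2 := coeff_qn_ne hk
        field_simp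
      · intro s hs hPres
        have hJs : dg (pathl ((X - C 1) ^ (n + 1)) P s) ((X - C 1) ^ (n + 1)) = P s :=
          dg_pathl (hq s)
        have hHC := hPHC s hs
        rw [← hJs] at hHC
        obtain ⟨k1, k2⟩ := HC_step hHC
        exact lemA hPres (ih _ k1) (ih _ k2) (fun σ _ h0 => hHC.facts.2.2.2.2 σ h0)
    refine hstr.congr (c := c) hc (fun k hk _ => ?_)
    unfold pathl
    have h1 : dg l ((X - C 1) ^ (n + 1)) = C c * P 1 := by
      rw [hJ]; simp [hPdef]
    have h2 := congrArg (fun p => p.coeff k) h1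
    simp only [coeff_dg, coeff_C_mul] at h2
    have h3 := coeff_qn_ne hk
    rw [mul_div_assoc', ← h2]
    field_simp

/-- **Theorem D** -/
theorem D_family (m : ℕ) : ∀ l : ℕ → ℝ, HD m (dg l (qq m)) → Str (m + 1) {m} l := by
  induction m with
  | zero =>
    intro l h
    obtain ⟨c, hc, y, -, -, hr⟩ := h
    have hl : l 1 = c := by
      have := congrArg (fun p => p.coeff 1) hr
      simp only [coeff_dg, qq, Finset.univ_eq_empty, Finset.prod_empty, Finset.sum_empty, C_0,
        add_zero, one_mul, pow_zero, Nat.cast_zero, coeff_C_mul, coeff_X_one, mul_one] at this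
      exact this
    intro p hp hp0 hps
    have hp0' : p.coeff 0 = 0 := hp.2 0 rfl
    have he : ∀ q : ℝ[X], q.natDegree ≤ 1 → q.coeff 0 = 0 → q = C (q.coeff 1) * X := by
      intro q hq hq0
      ext k
      rw [coeff_C_mul, coeff_X]
      rcases Nat.lt_or_ge 1 k with h | h
      · rw [coeff_eq_zero_of_natDegree_lt (by omega), if_neg (by omega), mul_zero]
      · rcases Nat.eq_zero_or_pos k with h1 | h1
        · rw [h1, hq0]; simp
        · have : k = 1 := by omega
          rw [this]; simp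
    have h1 := he p hp.1 hp0'
    have h2 := he (dg l p) ((natDegree_dg_le _ _).trans hp.1) (by rw [coeff_dg, hp0', mul_zero])
    have ha : p.coeff 1 ≠ 0 := by
      intro h0
      rw [h0, C_0, zero_mul] at h1
      exact hp0 h1
    have hne : l 1 * p.coeff 1 ≠ 0 := mul_ne_zero (by rw [hl]; exact hc) ha
    rw [coeff_dg] at h2
    rw [h2]
    refine ⟨mul_ne_zero (C_ne_zero.2 hne) X_ne_zero, Splits.X.C_mul _, fun τ hτ h0 => ?_⟩
    rw [eval_mul, eval_C, eval_X] at h0
    exact absurd h0 (mul_ne_zero hne hτ)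
  | succ m ih =>
    intro l h
    obtain ⟨c, hc, y, hy, hpos, hr⟩ := h
    obtain ⟨c0, hc0, y0, hy0, hpos0, hr0⟩ := base_HD m
    set P : ℝ → ℝ[X] := fun s => (∏ i, (X - C ((1 - s) * y0 i + s * y i))) *
      (X + C (∑ i, ((1 - s) * y0 i + s * y i))) with hPdef
    have hPc : CCt P := (CCt.prod (fun i => CCt.X_sub_C (by fun_prop))).mul
      (CCt.X_add_C (by fun_prop))
    have hPHD : ∀ s ∈ Icc (0:ℝ) 1, HD (m + 1) (P s) := by
      intro s hs
      refine ⟨1, one_ne_zero, fun i => (1 - s) * y0 i + s * y i, ?_, ?_, by simp [hPdef]⟩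
      · intro i j hij
        have h1 := hy hij
        have h2 := hy0 hij
        simp only
        rcases eq_or_lt_of_le hs.1 with h | h
        · rw [← h]; linarith
        · have h3 : s * y i < s * y j := mul_lt_mul_of_pos_left h1 h
          have h4 : (1 - s) * y0 i ≤ (1 - s) * y0 j :=
            mul_le_mul_of_nonneg_left h2.le (by linarith [hs.2])
          linarith
      · intro i
        have h1 := hpos i
        have h2 := hpos0 i
        rcases eq_or_lt_of_le hs.1 with h | h
        · rw [← h]; linarith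
        · have h3 : 0 < s * y i := mul_pos h h1
          have h4 : 0 ≤ (1 - s) * y0 i := mul_nonneg (by linarith [hs.2]) h2.le
          linarith
    have hPm : ∀ s, P s = mp 1 ((-∑ i, ((1 - s) * y0 i + s * y i)) ::ₘ
        Finset.univ.val.map (fun i => (1 - s) * y0 i + s * y i)) := by
      intro s
      rw [mp_cons, ← prod_eq_mp, C_neg, C_1, one_mul, hPdef]
      ring
    have hq : ∀ s : ℝ, ∀ k, (qq (m + 1)).coeff k = 0 → (P s).coeff k = 0 := by
      intro s k hk
      rw [hPm]
      by_cases hk1 : k = m + 1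
      · rw [hk1, mp_coeff_pred _ _ _ (by simp), Multiset.sum_cons]
        have : (Finset.univ.val.map (fun i => (1 - s) * y0 i + s * y i)).sum =
          ∑ i, ((1 - s) * y0 i + s * y i) := rfl
        rw [this]; ring
      · have hkn : m + 2 < k := by
          by_contra hcon
          push Not at hcon
          exact qq_coeff_ne hcon hk1 hk
        apply coeff_eq_zero_of_natDegree_lt
        rw [mp_natDegree one_ne_zero]
        simp
        omega
    have hstr : Str (m + 2) {m + 1} (pathl (qq (m + 1)) P 1) := by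
      apply continuity (cont_pathl hPc)
      · refine ((base_str (m + 2)).mono (Z := {m + 1})).congr (c := c0⁻¹) (inv_ne_zero hc0)
          (fun k hk hkZ => ?_)
        unfold pathl
        have h1 : P 0 = C c0⁻¹ * dg (l0 (m + 2)) (qq (m + 1)) := by
          rw [hr0, ← mul_assoc, ← C_mul, inv_mul_cancel₀ hc0, C_1, one_mul]
          simp [hPdef]
        rw [h1, coeff_C_mul, coeff_dg]
        have h2 := qq_coeff_ne hk (fun h => hkZ h)
        field_simp
      · intro s hs hPres
        have hJs : dg (pathl (qq (m + 1)) P s) (qq (m + 1)) = P s := dg_pathl (hq s)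
        have hHD := hPHD s hs
        rw [← hJs] at hHD
        obtain ⟨k1, k2⟩ := HD_step hHD
        obtain ⟨f1, f2, f3, f4, f5, f6⟩ := hHD.facts
        refine lemA' hPres (C_family m _ k1) (ih _ k2) ?_ (fun σ _ h0 => f6 σ h0)
        intro h0
        have h5 : (dg (pathl (qq (m + 1)) P s) (qq (m + 1))).leadingCoeff ≠ 0 :=
          leadingCoeff_ne_zero.2 f1
        rw [leadingCoeff, f2, coeff_dg, h0, zero_mul] at h5
        exact h5 rfl
    refine hstr.congr (c := c) hc (fun k hk hkZ => ?_)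
    unfold pathl
    have h1 : dg l (qq (m + 1)) = C c * P 1 := by
      rw [hr]; simp [hPdef]
    have h2 := congrArg (fun p => p.coeff k) h1
    simp only [coeff_dg, coeff_C_mul] at h2
    have h3 := qq_coeff_ne hk (fun h => hkZ h)
    rw [mul_div_assoc', ← h2]
    field_simp

end Pool.Agent.H47.RR
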