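import Mathlib
import Pool.Agent.H47.RR.Fam2

set_option autoImplicit false
set_option linter.unusedSectionVars false
set_option linter.unusedSimpArgs false
set_option linter.unusedVariables false

namespace Pool.Agent.H47.RR

open Polynomial Set Filter Topology

/-- limits of preservers are preservers -/
theorem pres_of_limit {d : ℕ} {Z : Set ℕ} {L : ℝ → ℕ → ℝ} {l : ℕ → ℝ}
    (hc : ∀ k, Continuous (fun s => L s k)) (h0 : ∀ k ≤ d, k ∉ Z → L 0 k = l k)
    (h : ∀ ε, 0 < ε → Pres d Z (L ε)) : Pres d Z l := by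
  intro p hp hs
  have he : dg l p = dg (L 0) p := by
    apply dg_congr
    intro k hk
    refine (h0 k ?_ ?_).symm
    · exact (le_natDegree_of_ne_zero hk).trans hp.1
    · intro hZ; exact hk (hp.2 k hZ)
  rw [he]
  refine splits_of_tendsto (F := 𝓝[>] (0:ℝ)) (P := fun ε => dg (L ε) p) (d := d)
    (fun i => (natDegree_dg_le _ _).trans hp.1) ((natDegree_dg_le _ _).trans hp.1) ?_ ?_
  · intro k
    simp only [coeff_dg]
    exact (((hc k).tendsto 0).mono_left nhdsWithin_le_nhds).mul_const _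
  · filter_upwards [self_mem_nhdsWithin] with ε hε
    exact h ε hε p hp hs

/-- a trace zero product annihilates the coefficient of index `m + 1` -/
theorem trace_zero_coeff {m : ℕ} {c : ℝ} {R : Multiset ℝ} (hR : R.card = m + 2) (hs : R.sum = 0)
    {k : ℕ} (hk : (qq (m + 1)).coeff k = 0) : (mp c R).coeff k = 0 := by
  by_cases hk1 : k = m + 1
  · rw [hk1, mp_coeff_pred _ _ _ hR, hs, mul_zero]
  · by_cases hc : c = 0
    · rw [hc]; unfold mp; simp
    · have hkn : m + 2 < k := by
        by_contra hcon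
        push Not at hcon
        exact qq_coeff_ne hcon hk1 hk
      apply coeff_eq_zero_of_natDegree_lt
      rw [mp_natDegree hc, hR]
      exact hkn

/-- **sufficiency, nonzero leading symbol** -/
theorem weak_A {m : ℕ} {l : ℕ → ℝ} {R : Multiset ℝ} {w c : ℝ} (hc : c ≠ 0)
    (hRc : R.card = m + 1) (hR : ∀ a ∈ R, 0 ≤ a) (hsum : w + R.sum = 0)
    (hr : dg l (qq (m + 1)) = mp c (w ::ₘ R)) : Pres (m + 2) {m + 1} l := by
  obtain ⟨y, hy, hyR⟩ := sort_exists R hRc
  have hy0 : ∀ i, 0 ≤ y i := fun i => hR _ (by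
    rw [← hyR]; exact Multiset.mem_map_of_mem y (Finset.mem_univ_val i))
  have hw : w = - ∑ i, y i := by
    have : R.sum = ∑ i, y i := by rw [← hyR]; rfl
    rw [this] at hsum
    linarith
  set P : ℝ → ℝ[X] := fun s => C c * ((∏ i : Fin (m + 1), (X - C (y i + s * (((i:ℕ):ℝ) + 1)))) *
      (X + C (∑ i : Fin (m + 1), (y i + s * (((i:ℕ):ℝ) + 1))))) with hPdef
  have hPc : CCt P := (CCt.const _).mul ((CCt.prod (fun i => CCt.X_sub_C (by fun_prop))).mul
      (CCt.X_add_C (by fun_prop)))
  have hPm : ∀ s, P s = mp c ((-∑ i : Fin (m + 1), (y i + s * (((i:ℕ):ℝ) + 1))) ::ₘ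
      Finset.univ.val.map (fun i : Fin (m + 1) => (y i + s * (((i:ℕ):ℝ) + 1)))) := by
    intro s
    rw [mp_cons, ← prod_eq_mp, C_neg, hPdef]
    ring
  have hq : ∀ s : ℝ, ∀ k, (qq (m + 1)).coeff k = 0 → (P s).coeff k = 0 := by
    intro s k hk
    rw [hPm]
    apply trace_zero_coeff _ _ hk
    · simp
    · rw [Multiset.sum_cons]
      have : (Finset.univ.val.map (fun i : Fin (m + 1) => (y i + s * (((i:ℕ):ℝ) + 1)))).sum =
          ∑ i : Fin (m + 1), (y i + s * (((i:ℕ):ℝ) + 1)) := rfl
      rw [this]; ring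
  have hP0 : P 0 = dg l (qq (m + 1)) := by
    rw [hr, hPm, hw]
    simp only [zero_mul, add_zero, hyR]
  apply pres_of_limit (L := pathl (qq (m + 1)) P) (cont_pathl hPc)
  · intro k hk hkZ
    unfold pathl
    rw [hP0, coeff_dg, mul_div_cancel_right₀ _ (qq_coeff_ne hk (fun h => hkZ h))]
  · intro ε hε
    apply Str.pres
    apply D_family
    rw [dg_pathl (hq ε)]
    refine ⟨c, hc, fun i => y i + ε * (((i:ℕ):ℝ) + 1), ?_, ?_, rfl⟩
    · intro i j hij
      have h1 := hy hij.le
      have h2 : ((i:ℕ):ℝ) < ((j:ℕ):ℝ) := by exact_mod_cast hij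
      simp only
      have h3 : ε * (((i:ℕ):ℝ) + 1) < ε * (((j:ℕ):ℝ) + 1) :=
        mul_lt_mul_of_pos_left (by linarith) hε
      linarith
    · intro i
      have h1 := hy0 i
      have h2 : 0 < ε * (((i:ℕ):ℝ) + 1) := by positivity
      simp only
      linarith

theorem mp_add (c : ℝ) (R S : Multiset ℝ) : mp c (R + S) = mp c R * mp 1 S := by
  unfold mp
  rw [Multiset.map_add, Multiset.prod_add, C_1, one_mul, mul_assoc]

theorem mp_replicate (K : ℕ) (a : ℝ) : mp 1 (Multiset.replicate K a) = (X - C a) ^ K := by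
  unfold mp
  rw [Multiset.map_replicate, Multiset.prod_replicate, C_1, one_mul]

theorem mp_scale (a c : ℝ) (R : Multiset ℝ) : mp (a * c) R = C a * mp c R := by
  unfold mp
  rw [C_mul, mul_assoc]

theorem CCt.pow {P : ℝ → ℝ[X]} (hP : CCt P) (n : ℕ) : CCt (fun s => P s ^ n) := by
  induction n with
  | zero => simp only [pow_zero]; exact CCt.const 1
  | succ n ih => simp only [pow_succ]; exact ih.mul hP

theorem CCt.lin {f : ℝ → ℝ} (hf : Continuous f) : CCt (fun s => 1 + C (f s) * X) := by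
  intro k
  simp only [coeff_add, coeff_C_mul]
  exact continuous_const.add (hf.mul_const _)

/-- **sufficiency, vanishing leading symbol** -/
theorem weak_B {m : ℕ} {l : ℕ → ℝ} {R : Multiset ℝ} {c : ℝ} (hc : c ≠ 0)
    (hRc : R.card ≤ m) (hR : ∀ a ∈ R, 0 ≤ a)
    (hr : dg l (qq (m + 1)) = mp c R) : Pres (m + 2) {m + 1} l := by
  obtain ⟨K, hK⟩ : ∃ K, K + R.card = m + 1 := ⟨m + 1 - R.card, by omega⟩
  have hKpos : 0 < K := by omega
  have hS : 0 ≤ R.sum := Multiset.sum_nonneg hR
  set S := R.sum with hSdef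
  have hKr : (0:ℝ) < K := by exact_mod_cast hKpos
  have hden : ∀ s : ℝ, 0 < |s| * S + K := fun s => by
    have := mul_nonneg (abs_nonneg s) hS
    linarith
  set P : ℝ → ℝ[X] := fun s => mp c R * ((1 + C (-s) * X) ^ K * (1 + C (s / (|s| * S + K)) * X))
    with hPdef
  have hPc : CCt P := by
    refine (CCt.const _).mul (((CCt.lin continuous_neg).pow K).mul (CCt.lin ?_))
    apply continuous_id.div (by fun_prop)
    intro s
    exact (hden s).ne'
  have hP0 : P 0 = dg l (qq (m + 1)) := by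
    rw [hr, hPdef]
    simp
  have key : ∀ s : ℝ, 0 < s → ∃ c' : ℝ, c' ≠ 0 ∧ ∃ w : ℝ,
      P s = mp c' (w ::ₘ (Multiset.replicate K (1 / s) + R)) ∧
      w + (Multiset.replicate K (1 / s) + R).sum = 0 := by
    intro s hs
    have hD := hden s
    rw [abs_of_pos hs] at hD
    set a := s / (s * S + K) with ha
    have hapos : 0 < a := div_pos hs hD
    refine ⟨(-s) ^ K * a * c, ?_, -(1 / a), ?_, ?_⟩
    · have : (-s) ^ K ≠ 0 := pow_ne_zero _ (by linarith)
      exact mul_ne_zero (mul_ne_zero this hapos.ne') hc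
    · rw [mp_cons, add_comm _ R, mp_add, mp_replicate, mp_scale, hPdef]
      simp only [abs_of_pos hs]
      rw [← ha]
      have e1 : (1 + C (-s) * X : ℝ[X]) = C (-s) * (X - C (1 / s)) := by
        rw [mul_sub, ← C_mul, neg_mul, mul_one_div_cancel hs.ne', C_neg, C_neg, C_1]
        ring
      have e2 : (1 + C a * X : ℝ[X]) = C a * (X - C (-(1 / a))) := by
        rw [C_neg, sub_neg_eq_add, mul_add, ← C_mul, mul_one_div_cancel hapos.ne', C_1]
        ring
      rw [e1, e2, mul_pow, C_mul, C_pow]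
      ring
    · rw [Multiset.sum_add, Multiset.sum_replicate, nsmul_eq_mul, ← hSdef, ha]
      field_simp
      ring
  have hq : ∀ s : ℝ, 0 < s → ∀ k, (qq (m + 1)).coeff k = 0 → (P s).coeff k = 0 := by
    intro s hs k hk
    obtain ⟨c', hc', w, h1, h2⟩ := key s hs
    rw [h1]
    apply trace_zero_coeff _ _ hk
    · simp; omega
    · rw [Multiset.sum_cons]; exact h2
  apply pres_of_limit (L := pathl (qq (m + 1)) P) (cont_pathl hPc)
  · intro k hk hkZ
    unfold pathl
    rw [hP0, coeff_dg, mul_div_cancel_right₀ _ (qq_coeff_ne hk (fun h => hkZ h))]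
  · intro ε hε
    obtain ⟨c', hc', w, h1, h2⟩ := key ε hε
    refine weak_A (R := Multiset.replicate K (1 / ε) + R) (w := w) hc' ?_ ?_ h2 ?_
    · simp; omega
    · intro a ha
      rw [Multiset.mem_add] at ha
      rcases ha with h | h
      · rw [Multiset.eq_of_mem_replicate h]; positivity
      · exact hR a h
    · rw [dg_pathl (hq ε hε), h1]

/-! ### reflection -/

theorem dg_refl (l : ℕ → ℝ) (p : ℝ[X]) :
    dg (fun k => (-1) ^ k * l k) p = (dg l p).comp (C (-1) * X) := by
  ext k
  simp only [comp_C_mul_X_coeff, coeff_dg]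
  ring

theorem mp_comp_neg (c : ℝ) (R : Multiset ℝ) :
    (mp c R).comp (C (-1) * X) = mp ((-1) ^ R.card * c) (R.map (fun a => -a)) := by
  induction R using Multiset.induction with
  | empty => simp [mp_zero]
  | cons a R ih =>
    rw [mp_cons, mul_comp, ih, Multiset.card_cons, Multiset.map_cons, mp_cons]
    have : ((-1:ℝ) ^ (R.card + 1) * c) = (-1) * ((-1) ^ R.card * c) := by rw [pow_succ]; ring
    have h2 : mp (-1 * ((-1) ^ R.card * c)) (Multiset.map (fun a => -a) R) =
        - mp ((-1) ^ R.card * c) (Multiset.map (fun a => -a) R) := by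
      rw [mp_scale (-1), C_neg, C_1]; ring
    rw [this, h2]
    simp only [sub_comp, X_comp, C_comp, C_neg, C_1]
    ring

theorem splits_comp_neg {p : ℝ[X]} (hp : p.Splits) : (p.comp (C (-1) * X)).Splits := by
  rw [eq_mp hp, mp_comp_neg]
  exact mp_splits _ _

theorem comp_neg_comp_neg (p : ℝ[X]) : (p.comp (C (-1) * X)).comp (C (-1) * X) = p := by
  ext k
  simp only [comp_C_mul_X_coeff]
  rw [mul_assoc, ← mul_pow]
  simp

theorem Pres.refl {d : ℕ} {Z : Set ℕ} {l : ℕ → ℝ} (h : Pres d Z l) :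
    Pres d Z (fun k => (-1) ^ k * l k) := by
  intro p hp hs
  rw [dg_refl]
  exact splits_comp_neg (h p hp hs)

theorem Pres.of_refl {d : ℕ} {Z : Set ℕ} {l : ℕ → ℝ} (h : Pres d Z (fun k => (-1) ^ k * l k)) :
    Pres d Z l := by
  have h1 := h.refl
  intro p hp hs
  have h2 := h1 p hp hs
  have e : dg (fun k => (-1) ^ k * ((-1) ^ k * l k)) p = dg l p := by
    apply dg_congr
    intro k _
    rw [← mul_assoc, ← mul_pow]
    simp
  rw [e] at h2
  exact h2

theorem exists_sub {α : Type*} {M : Multiset α} {n : ℕ} (h : n ≤ M.card) :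
    ∃ R ≤ M, R.card = n := by
  induction M using Quotient.inductionOn with
  | h L =>
    refine ⟨((L.take n : List α) : Multiset α), ?_, ?_⟩
    · exact (List.take_sublist n L).subperm
    · rw [Multiset.coe_card, List.length_take]
      have : n ≤ L.length := h
      omega

/-- **sufficiency** -/
theorem suff_A_pos {m : ℕ} {l : ℕ → ℝ} (hl : l (m + 2) ≠ 0) (hs : (dg l (qq (m + 1))).Splits)
    (hcount : m + 1 ≤ ((dg l (qq (m + 1))).roots.filter (fun x => 0 ≤ x)).card) :
    Pres (m + 2) {m + 1} l := by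
  classical
  set r := dg l (qq (m + 1)) with hr
  have hdeg : r.natDegree = m + 2 := by
    apply le_antisymm
    · refine (natDegree_dg_le _ _).trans ?_
      rw [qq_natDegree]
    · apply le_natDegree_of_ne_zero
      rw [hr, coeff_dg, qq_coeff_top]
      exact mul_ne_zero hl one_ne_zero
  have h0 : r ≠ 0 := by
    intro h0
    rw [h0] at hdeg
    simp at hdeg
  have hcard : r.roots.card = m + 2 := by rw [← hdeg]; exact splits_iff_card_roots.1 hs
  obtain ⟨R, hRle, hRc⟩ : ∃ R ≤ r.roots.filter (fun x => 0 ≤ x), R.card = m + 1 :=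
    exists_sub hcount
  have hRr : R ≤ r.roots := hRle.trans (Multiset.filter_le _ _)
  obtain ⟨W, hW⟩ := Multiset.le_iff_exists_add.1 hRr
  have hWc : W.card = 1 := by
    have := congrArg Multiset.card hW
    rw [Multiset.card_add, hcard, hRc] at this
    omega
  obtain ⟨w, hw⟩ := Multiset.card_eq_one.1 hWc
  have hroots : r.roots = w ::ₘ R := by
    rw [hW, hw, add_comm, Multiset.singleton_add]
  have hsum : w + R.sum = 0 := by
    have h5 := mp_coeff_pred r.leadingCoeff r.roots (m + 1) hcard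
    rw [← eq_mp hs, hr, coeff_dg, qq_coeff_mid, mul_zero, ← hr] at h5
    have hc : r.leadingCoeff ≠ 0 := leadingCoeff_ne_zero.2 h0
    rcases mul_eq_zero.1 h5.symm with h | h
    · exact absurd (neg_eq_zero.1 h) hc
    · rw [hroots, Multiset.sum_cons] at h
      exact h
  refine weak_A (R := R) (w := w) (c := r.leadingCoeff) (leadingCoeff_ne_zero.2 h0) hRc ?_ hsum ?_
  · intro a ha
    exact (Multiset.mem_filter.1 (Multiset.mem_of_le hRle ha)).2
  · rw [← hroots, ← eq_mp hs]

theorem suff_B_pos {m : ℕ} {l : ℕ → ℝ} (hl : l (m + 2) = 0) (hs : (dg l (qq (m + 1))).Splits)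
    (hpos : ∀ x ∈ (dg l (qq (m + 1))).roots, 0 ≤ x) :
    Pres (m + 2) {m + 1} l := by
  set r := dg l (qq (m + 1)) with hr
  by_cases h0 : r = 0
  · intro p hp hs
    have : dg l p = 0 := by
      ext k
      rw [coeff_dg, coeff_zero]
      by_cases hk : k ≤ m + 2
      · by_cases hk1 : k = m + 1
        · rw [hk1, hp.2 (m + 1) rfl, mul_zero]
        · have h2 := congrArg (fun p => p.coeff k) h0
          simp only [hr, coeff_dg, coeff_zero] at h2
          rcases mul_eq_zero.1 h2 with h3 | h3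
          · rw [h3, zero_mul]
          · exact absurd h3 (qq_coeff_ne hk hk1)
      · rw [coeff_eq_zero_of_natDegree_lt (by have := hp.1; omega), mul_zero]
    rw [this]
    exact Splits.zero
  · have hdeg : r.natDegree ≤ m := by
      rw [natDegree_le_iff_coeff_eq_zero]
      intro N hN
      rw [hr, coeff_dg]
      rcases Nat.lt_or_ge (m + 2) N with h | h
      · rw [coeff_eq_zero_of_natDegree_lt (by rw [qq_natDegree]; omega), mul_zero]
      · rcases Nat.lt_or_ge N (m + 2) with h' | h'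
        · have : N = m + 1 := by omega
          rw [this, qq_coeff_mid, mul_zero]
        · have : N = m + 2 := by omega
          rw [this, hl, zero_mul]
    refine weak_B (R := r.roots) (c := r.leadingCoeff) (leadingCoeff_ne_zero.2 h0) ?_ hpos ?_
    · rw [splits_iff_card_roots.1 hs]; exact hdeg
    · rw [← eq_mp hs]

theorem roots_comp_neg {p : ℝ[X]} (hp : p.Splits) :
    (p.comp (C (-1) * X)).roots = p.roots.map (fun a => -a) := by
  by_cases h0 : p = 0
  · rw [h0]; simp
  · have h1 : p.leadingCoeff ≠ 0 := leadingCoeff_ne_zero.2 h0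
    conv_lhs => rw [eq_mp hp, mp_comp_neg]
    rw [mp_roots]
    exact mul_ne_zero (pow_ne_zero _ (by norm_num)) h1

theorem suff_A_neg {m : ℕ} {l : ℕ → ℝ} (hl : l (m + 2) ≠ 0) (hs : (dg l (qq (m + 1))).Splits)
    (hcount : m + 1 ≤ ((dg l (qq (m + 1))).roots.filter (fun x => x ≤ 0)).card) :
    Pres (m + 2) {m + 1} l := by
  apply Pres.of_refl
  apply suff_A_pos
  · exact mul_ne_zero (pow_ne_zero _ (by norm_num)) hl
  · rw [dg_refl]; exact splits_comp_neg hs
  · rw [dg_refl, roots_comp_neg hs, Multiset.filter_map, Multiset.card_map]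
    refine hcount.trans (le_of_eq ?_)
    congr 1
    apply Multiset.filter_congr
    intro x _
    simp

theorem suff_B_neg {m : ℕ} {l : ℕ → ℝ} (hl : l (m + 2) = 0) (hs : (dg l (qq (m + 1))).Splits)
    (hpos : ∀ x ∈ (dg l (qq (m + 1))).roots, x ≤ 0) :
    Pres (m + 2) {m + 1} l := by
  apply Pres.of_refl
  apply suff_B_pos
  · rw [hl, mul_zero]
  · rw [dg_refl]; exact splits_comp_neg hs
  · rw [dg_refl, roots_comp_neg hs]
    intro x hx
    obtain ⟨a, ha, rfl⟩ := Multiset.mem_map.1 hx
    have := hpos a ha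
    linarith

end Pool.Agent.H47.RR
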