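import Mathlib
import Pool.Agent.H47.RR.Weak

set_option autoImplicit false
set_option linter.unusedSectionVars false
set_option linter.unusedSimpArgs false
set_option linter.unusedVariables false

namespace Pool.Agent.H47.RR

open Polynomial Set Filter Topology

/-! ### the sign pattern of a preserver on all polynomials of degree at most `n` -/

theorem Pres.shift {n k : ℕ} {l : ℕ → ℝ} (h : Pres (k + n) ∅ l) :
    Pres n ∅ (fun j => l (j + k)) := by
  intro p hp hs
  have h1 : InW (k + n) ∅ (X ^ k * p) := by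
    apply inW_empty
    refine natDegree_mul_le.trans ?_
    rw [natDegree_X_pow]
    have := hp.1
    omega
  have h2 := h _ h1 ((Splits.X_pow k).mul hs)
  rw [dg_X_pow_mul] at h2
  by_cases h0 : dg (fun j => l (j + k)) p = 0
  · rw [h0]; exact Splits.zero
  · exact h2.of_dvd (mul_ne_zero (pow_ne_zero _ X_ne_zero) h0) (dvd_mul_left _ _)

theorem Pres.le {n n' : ℕ} {l : ℕ → ℝ} (h : Pres n ∅ l) (hn : n' ≤ n) : Pres n' ∅ l :=
  fun p hp hs => h p (inW_empty (hp.1.trans hn)) hs

/-- the Laguerre inequality at the origin -/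
theorem lag_zero {p : ℝ[X]} (hp : p.Splits) :
    0 ≤ (p.coeff 1) ^ 2 - 2 * (p.coeff 0 * p.coeff 2) := by
  have h := laguerre hp 0
  unfold Lag at h
  rw [← coeff_zero_eq_eval_zero, ← coeff_zero_eq_eval_zero, ← coeff_zero_eq_eval_zero,
    coeff_derivative, coeff_derivative, coeff_derivative] at h
  norm_num at h
  linarith

theorem prod_nonneg_two {n : ℕ} {l : ℕ → ℝ} (h : Pres n ∅ l) {k : ℕ} (hk : k + 2 ≤ n) :
    0 ≤ l k * l (k + 2) := by
  obtain ⟨m, rfl⟩ : ∃ m, n = k + m := ⟨n - k, by omega⟩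
  have h1 := h.shift
  have h2 : InW m ∅ ((X - C (1:ℝ)) * (X + C 1)) := by
    apply inW_empty
    refine natDegree_mul_le.trans ?_
    rw [natDegree_X_sub_C, natDegree_X_add_C]
    omega
  have h3 := lag_zero (h1 _ h2 ((Splits.X_sub_C 1).mul (Splits.X_add_C 1)))
  have e : (X - C (1:ℝ)) * (X + C 1) = X ^ 2 - C 1 := by rw [C_1]; ring
  rw [e] at h3
  simp only [coeff_dg, coeff_sub, coeff_X_pow, coeff_C] at h3
  norm_num at h3
  rw [add_comm 2 k] at h3
  linarith

/-- a vanishing inner symbol forces a vanishing end symbol -/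
theorem no_gap {j : ℕ} {l : ℕ → ℝ} (hj : 2 ≤ j) (h : Pres j ∅ l) (h0 : l 0 ≠ 0)
    (hz : ∀ i, 0 < i → i < j → l i = 0) : l j = 0 := by
  by_contra hne
  rcases Nat.lt_or_ge 2 j with h3 | h3
  · have hW : InW j ∅ ((X - C (1:ℝ)) ^ j) := by
      apply inW_empty
      rw [natDegree_pow, natDegree_X_sub_C, mul_one]
    have hs := h _ hW ((Splits.X_sub_C 1).pow j)
    have h1 := root_of_double hs (x := 0) ?_ ?_ ?_
    · rw [← coeff_zero_eq_eval_zero, coeff_dg] at h1
      exact mul_ne_zero h0 (coeff_qn_ne (Nat.zero_le _)) h1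
    · have : j ≤ (dg l ((X - C (1:ℝ)) ^ j)).natDegree := by
        apply le_natDegree_of_ne_zero
        rw [coeff_dg]
        exact mul_ne_zero hne (coeff_qn_ne le_rfl)
      omega
    · rw [← coeff_zero_eq_eval_zero, coeff_derivative, coeff_dg, hz 1 (by omega) (by omega)]
      simp
    · rw [← coeff_zero_eq_eval_zero, coeff_derivative, coeff_derivative, coeff_dg,
        hz 2 (by omega) (by omega)]
      simp
  · have hj2 : j = 2 := by omega
    subst hj2
    have hW : InW 2 ∅ ((X - C (1:ℝ)) ^ 2) := by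
      apply inW_empty
      rw [natDegree_pow, natDegree_X_sub_C, mul_one]
    have h1 := lag_zero (h _ hW ((Splits.X_sub_C 1).pow 2))
    simp only [coeff_dg, coeff_qn, hz 1 (by omega) (by omega)] at h1
    norm_num at h1
    have h2 := prod_nonneg_two h (k := 0) (by omega)
    simp only [zero_add] at h2
    have h4 : l 0 * l 2 = 0 := by
      linarith
    exact mul_ne_zero h0 hne h4

theorem chain {n : ℕ} {l : ℕ → ℝ} (h : Pres n ∅ l) (h0 : l 0 ≠ 0) {b : ℕ} (hb : b ≤ n)
    (hlb : l b ≠ 0) : ∀ k ≤ b, l k ≠ 0 := by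
  intro k
  induction k with
  | zero => intro _; exact h0
  | succ k ih =>
    intro hk hk0
    have hlk := ih (by omega)
    -- smallest index above k with nonzero symbol
    classical
    have hex : ∃ j, k < j ∧ l j ≠ 0 := ⟨b, by omega, hlb⟩
    obtain ⟨hj1, hj2⟩ := Nat.find_spec hex
    have hjb : Nat.find hex ≤ b := Nat.find_min' hex ⟨by omega, hlb⟩
    have hjk : Nat.find hex ≠ k + 1 := by
      intro he
      rw [he] at hj2
      exact hj2 hk0
    obtain ⟨j', hj'⟩ : ∃ j', Nat.find hex = k + j' := ⟨Nat.find hex - k, by omega⟩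
    have hP : Pres j' ∅ (fun i => l (i + k)) := by
      apply Pres.shift
      exact h.le (by omega)
    have := no_gap (l := fun i => l (i + k)) (j := j') (by omega) hP (by simpa using hlk) ?_
    · rw [hj', add_comm] at hj2
      exact hj2 this
    · intro i hi1 hi2
      have hm := Nat.find_min hex (m := i + k) (by omega)
      by_contra hcon
      exact hm ⟨by omega, hcon⟩

theorem pattern0 {n : ℕ} {l : ℕ → ℝ} (h : Pres n ∅ l) (h0 : l 0 ≠ 0) :
    ∃ s e : ℝ, (s = 1 ∨ s = -1) ∧ (e = 1 ∨ e = -1) ∧ ∀ k ≤ n, 0 ≤ s * e ^ k * l k := by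
  obtain ⟨s, hs, hs0⟩ : ∃ s : ℝ, (s = 1 ∨ s = -1) ∧ 0 ≤ s * l 0 := by
    rcases le_total 0 (l 0) with h | h
    · exact ⟨1, Or.inl rfl, by linarith⟩
    · exact ⟨-1, Or.inr rfl, by linarith⟩
  obtain ⟨e, he, he0⟩ : ∃ e : ℝ, (e = 1 ∨ e = -1) ∧ 0 ≤ s * e * l 1 := by
    rcases le_total 0 (s * l 1) with h | h
    · exact ⟨1, Or.inl rfl, by linarith⟩
    · exact ⟨-1, Or.inr rfl, by linarith⟩
  refine ⟨s, e, hs, he, ?_⟩
  have he2 : e ^ 2 = 1 := by rcases he with h | h <;> rw [h] <;> norm_num
  have key : ∀ k, (k ≤ n → 0 ≤ s * e ^ k * l k) ∧ (k + 1 ≤ n → 0 ≤ s * e ^ (k + 1) * l (k + 1)) := by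
    intro k
    induction k with
    | zero =>
      refine ⟨fun _ => by simpa using hs0, fun _ => by simpa using he0⟩
    | succ k ih =>
      refine ⟨ih.2, fun hk => ?_⟩
      by_cases hz : l (k + 1 + 1) = 0
      · rw [hz]; simp
      · have h1 := ih.1 (by omega)
        have h2 := prod_nonneg_two h (k := k) (by omega)
        have h3 := chain h h0 (b := k + 2) (by omega) hz k (by omega)
        have h4 : s * e ^ (k + 1 + 1) = s * e ^ k := by
          rw [pow_add, pow_add]
          have : e ^ 1 * e ^ 1 = 1 := by rw [← he2]; ring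
          rw [mul_assoc (e ^ k), this, mul_one]
        rw [h4]
        have h5 : 0 < l k ^ 2 := by positivity
        have h6 : 0 ≤ (s * e ^ k * l (k + 1 + 1)) * l k ^ 2 := by
          have : (s * e ^ k * l (k + 1 + 1)) * l k ^ 2 = (s * e ^ k * l k) * (l k * l (k + 2)) := by
            ring
          rw [this]
          exact mul_nonneg h1 h2
        exact nonneg_of_mul_nonneg_left h6 h5
  exact fun k hk => (key k).1 hk

theorem pattern {n : ℕ} {l : ℕ → ℝ} (h : Pres n ∅ l) :
    ∃ s e : ℝ, (s = 1 ∨ s = -1) ∧ (e = 1 ∨ e = -1) ∧ ∀ k ≤ n, 0 ≤ s * e ^ k * l k := by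
  classical
  by_cases hex : ∃ a, a ≤ n ∧ l a ≠ 0
  · obtain ⟨ha1, ha2⟩ := Nat.find_spec hex
    set a := Nat.find hex with hadef
    have hmin : ∀ k, k < a → l k = 0 := by
      intro k hk
      by_contra hcon
      exact Nat.find_min hex hk ⟨by omega, hcon⟩
    obtain ⟨m, hm⟩ : ∃ m, n = a + m := ⟨n - a, by omega⟩
    have hP : Pres m ∅ (fun i => l (i + a)) := by
      apply Pres.shift
      rw [← hm]; exact h
    obtain ⟨s, e, hs, he, hse⟩ := pattern0 hP (by simpa using ha2)
    have he2 : e * e = 1 := by rcases he with h | h <;> rw [h] <;> norm_num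
    have hea : e ^ a = 1 ∨ e ^ a = -1 := by
      rcases he with h | h
      · rw [h]; left; simp
      · rw [h]
        exact neg_one_pow_eq_or ℝ a
    refine ⟨s * e ^ a, e, ?_, he, ?_⟩
    · rcases hs with h1 | h1 <;> rcases hea with h2 | h2 <;> rw [h1, h2] <;> norm_num
    · intro k hk
      rcases Nat.lt_or_ge k a with hlt | hge
      · rw [hmin k hlt]; simp
      · obtain ⟨j, rfl⟩ : ∃ j, k = j + a := ⟨k - a, by omega⟩
        have h1 := hse j (by omega)
        have h2 : s * e ^ a * e ^ (j + a) = s * e ^ j := by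
          rw [pow_add]
          have : e ^ a * e ^ a = 1 := by rw [← mul_pow, he2, one_pow]
          calc s * e ^ a * (e ^ j * e ^ a) = s * e ^ j * (e ^ a * e ^ a) := by ring
            _ = _ := by rw [this, mul_one]
        rw [h2]
        exact h1
  · push Not at hex
    exact ⟨1, 1, Or.inl rfl, Or.inl rfl, fun k hk => by rw [hex k hk]; simp⟩

/-! ### at most one negative root -/

theorem few_neg {m : ℕ} {l : ℕ → ℝ} (hl : ∀ k ≤ m, 0 ≤ l k) :
    ((dg l (qq (m + 1))).roots.filter (fun x => x < 0)).card ≤ 1 := by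
  classical
  set r := dg l (qq (m + 1)) with hr
  by_cases h0 : r = 0
  · rw [h0]; simp
  by_cases hne : ∃ k ≤ m, l k ≠ 0
  · by_contra hcon
    push Not at hcon
    obtain ⟨S, hS, hSc⟩ := exists_sub (M := r.roots.filter (fun x => x < 0)) (n := 2) hcon
    obtain ⟨x, y, hxy⟩ := Multiset.card_eq_two.1 hSc
    have hx : x ∈ r.roots.filter (fun x => x < 0) := Multiset.mem_of_le hS (by rw [hxy]; simp)
    have hy : y ∈ r.roots.filter (fun x => x < 0) := Multiset.mem_of_le hS (by rw [hxy]; simp)
    obtain ⟨hx1, hx2⟩ := Multiset.mem_filter.1 hx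
    obtain ⟨hy1, hy2⟩ := Multiset.mem_filter.1 hy
    have hx3 : r.eval x = 0 := (mem_roots h0).1 hx1
    have hy3 : r.eval y = 0 := (mem_roots h0).1 hy1
    have hxy' : x = y := one_neg hl hne hx2 hy2 hx3 hy3
    subst hxy'
    have hcount : 2 ≤ r.roots.count x := by
      have h1 : S ≤ r.roots := hS.trans (Multiset.filter_le _ _)
      have h2 := Multiset.count_le_of_le x h1
      rw [hxy] at h2
      simpa using h2
    rw [count_roots] at hcount
    obtain ⟨-, h2⟩ := (one_lt_rootMultiplicity_iff_isRoot h0).1 hcount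
    have hP : C ((m:ℝ) + 2) * r - X * derivative r =
        C (-(((m:ℝ) + 2) * (m + 1))) * dg l ((X - C 1) ^ m) := by
      rw [hr, ← dg_C_mul, ← dg_X_derivative, ← dg_sub, eul_qq, dg_C_mul]
    have h3 := congrArg (fun p => p.eval x) hP
    simp only [eval_sub, eval_mul, eval_C, eval_X] at h3
    have h2' : (derivative r).eval x = 0 := h2
    rw [hx3, h2', mul_zero, mul_zero, sub_zero] at h3
    have hne2 : (-(((m:ℝ) + 2) * (m + 1))) ≠ 0 := by
      have : 0 < ((m:ℝ) + 2) * (m + 1) := by positivity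
      linarith
    rcases mul_eq_zero.1 h3.symm with h | h
    · exact hne2 h
    · exact neg_ne hl hne hx2 h
  · push Not at hne
    have h1 : r = C (l (m + 2)) * X ^ (m + 2) := by
      ext k
      rw [hr, coeff_dg, coeff_C_mul, coeff_X_pow]
      rcases lt_trichotomy k (m + 2) with h | h | h
      · rw [if_neg (by omega)]
        rcases Nat.lt_or_ge m k with h' | h'
        · have : k = m + 1 := by omega
          rw [this, qq_coeff_mid, mul_zero, mul_zero]
        · rw [hne k h']; simp
      · rw [h, qq_coeff_top, if_pos rfl]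
      · rw [if_neg (by omega), coeff_eq_zero_of_natDegree_lt (by rw [qq_natDegree]; omega),
          mul_zero, mul_zero]
    have h2 : r.roots.filter (fun x => x < 0) = 0 := by
      rw [Multiset.filter_eq_nil]
      intro a ha hneg
      have h3 : r.eval a = 0 := (mem_roots h0).1 ha
      rw [h1, eval_mul, eval_C, eval_pow, eval_X] at h3
      rcases mul_eq_zero.1 h3 with h | h
      · apply h0
        rw [h1, h, C_0, zero_mul]
      · have := pow_ne_zero (m + 2) hneg.ne
        exact this h
    rw [h2]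
    simp

theorem no_neg {m : ℕ} {l : ℕ → ℝ} (hl : ∀ k ≤ m, 0 ≤ l k) (hl2 : l (m + 2) = 0) :
    ∀ x ∈ (dg l (qq (m + 1))).roots, 0 ≤ x := by
  intro x hx
  set r := dg l (qq (m + 1)) with hr
  have h0 : r ≠ 0 := by
    intro h
    rw [h] at hx
    simp at hx
  have h3 : r.eval x = 0 := (mem_roots h0).1 hx
  by_contra hneg
  push Not at hneg
  have h1 : 0 < (C (-(-1:ℝ) ^ m) * r).eval x := by
    apply altsign _ _ hneg
    · intro k
      rw [coeff_C_mul, hr, coeff_dg]
      by_cases hk : k ≤ m
      · have e1 := qq_coeff_low hk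
        rw [coeff_qn] at e1
        have hpos : 0 < (m:ℝ) + 2 - k := by
          have : (k:ℝ) ≤ m := by exact_mod_cast hk
          linarith
        have e2 : (qq (m + 1)).coeff k =
            -(((m:ℝ) + 2) * (m + 1)) * ((-1) ^ (m - k) * (m.choose k : ℝ)) / ((m:ℝ) + 2 - k) := by
          rw [← e1, mul_div_cancel_left₀ _ hpos.ne']
        rw [e2]
        have e3 : (-1:ℝ) ^ k * (-(-1) ^ m * (l k * (-(((m:ℝ) + 2) * (m + 1)) *
            ((-1) ^ (m - k) * (m.choose k : ℝ)) / ((m:ℝ) + 2 - k)))) =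
            ((-1:ℝ) ^ k * (-1) ^ (m - k) * (-1) ^ m) * (l k * (((m:ℝ) + 2) * (m + 1)) *
            (m.choose k : ℝ) / ((m:ℝ) + 2 - k)) := by ring
        rw [e3, ← pow_add, ← pow_add]
        have : k + (m - k) + m = 2 * m := by omega
        rw [this, pow_mul]
        have := hl k hk
        simp only [even_two, Even.neg_pow, one_pow, one_mul]
        positivity
      · have : l k * (qq (m + 1)).coeff k = 0 := by
          rcases Nat.lt_or_ge (m + 2) k with h | h
          · rw [coeff_eq_zero_of_natDegree_lt (by rw [qq_natDegree]; omega), mul_zero]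
          · rcases Nat.lt_or_ge k (m + 2) with h' | h'
            · have : k = m + 1 := by omega
              rw [this, qq_coeff_mid, mul_zero]
            · have : k = m + 2 := by omega
              rw [this, hl2, zero_mul]
        rw [this]
        simp
    · exact mul_ne_zero (C_ne_zero.2 (neg_ne_zero.2 (pow_ne_zero _ (by norm_num)))) h0
  rw [eval_mul, h3, mul_zero] at h1
  exact lt_irrefl _ h1

/-! ### necessity -/

theorem qq_inW (m : ℕ) : InW (m + 2) {m + 1} (qq (m + 1)) := by
  refine ⟨by rw [qq_natDegree], ?_⟩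
  rintro k rfl
  exact qq_coeff_mid (m + 1)

theorem Pres.low {m : ℕ} {l : ℕ → ℝ} (h : Pres (m + 2) {m + 1} l) : Pres m ∅ l := by
  intro p hp hs
  refine h p ⟨by have := hp.1; omega, ?_⟩ hs
  rintro k rfl
  exact coeff_eq_zero_of_natDegree_lt (by have := hp.1; omega)

/-- normal form of the symbols -/
theorem Pres.normal {m : ℕ} {l : ℕ → ℝ} (h : Pres (m + 2) {m + 1} l) :
    ∃ s : ℝ, s ≠ 0 ∧ ((∀ k ≤ m, 0 ≤ s * l k) ∨ (∀ k ≤ m, 0 ≤ s * ((-1) ^ k * l k))) := by
  obtain ⟨s, e, hs, he, hse⟩ := pattern h.low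
  have hs0 : s ≠ 0 := by rcases hs with h | h <;> rw [h] <;> norm_num
  refine ⟨s, hs0, ?_⟩
  rcases he with h1 | h1
  · left
    intro k hk
    have := hse k hk
    rw [h1, one_pow, mul_one] at this
    exact this
  · right
    intro k hk
    have := hse k hk
    rw [h1, mul_assoc] at this
    exact this

theorem dg_smul (s : ℝ) (l : ℕ → ℝ) (p : ℝ[X]) : dg (fun k => s * l k) p = C s * dg l p := by
  ext k
  rw [coeff_C_mul, coeff_dg, coeff_dg, mul_assoc]

theorem nec_A {m : ℕ} {l : ℕ → ℝ} (h : Pres (m + 2) {m + 1} l) :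
    ((dg l (qq (m + 1))).roots.filter (fun x => x < 0)).card ≤ 1 ∨
    ((dg l (qq (m + 1))).roots.filter (fun x => 0 < x)).card ≤ 1 := by
  obtain ⟨s, hs, h1 | h1⟩ := h.normal
  · left
    have := few_neg h1
    rw [dg_smul, roots_C_mul _ hs] at this
    exact this
  · right
    have h2 := few_neg h1
    have hsp := h _ (qq_inW m) (qq_splits _)
    rw [dg_smul, roots_C_mul _ hs, dg_refl, roots_comp_neg hsp, Multiset.filter_map,
      Multiset.card_map] at h2
    refine le_trans (le_of_eq ?_) h2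
    congr 1
    apply Multiset.filter_congr
    intro x _
    simp

theorem nec_B {m : ℕ} {l : ℕ → ℝ} (h : Pres (m + 2) {m + 1} l) (hl : l (m + 2) = 0) :
    (∀ x ∈ (dg l (qq (m + 1))).roots, 0 ≤ x) ∨ (∀ x ∈ (dg l (qq (m + 1))).roots, x ≤ 0) := by
  obtain ⟨s, hs, h1 | h1⟩ := h.normal
  · left
    have := no_neg h1 (by rw [hl, mul_zero])
    rw [dg_smul, roots_C_mul _ hs] at this
    exact this
  · right
    have h2 := no_neg h1 (by rw [hl]; simp)
    have hsp := h _ (qq_inW m) (qq_splits _)
    rw [dg_smul, roots_C_mul _ hs, dg_refl, roots_comp_neg hsp] at h2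
    intro x hx
    have := h2 (-x) (Multiset.mem_map_of_mem _ hx)
    linarith

theorem filter_card_split (M : Multiset ℝ) :
    (M.filter (fun x => 0 ≤ x)).card + (M.filter (fun x => x < 0)).card = M.card := by
  classical
  have := Multiset.filter_add_not (fun x : ℝ => 0 ≤ x) M
  conv_rhs => rw [← this]
  rw [Multiset.card_add]
  congr 2
  apply Multiset.filter_congr
  intro x _
  simp

theorem filter_card_split' (M : Multiset ℝ) :
    (M.filter (fun x => x ≤ 0)).card + (M.filter (fun x => 0 < x)).card = M.card := by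
  classical
  have := Multiset.filter_add_not (fun x : ℝ => x ≤ 0) M
  conv_rhs => rw [← this]
  rw [Multiset.card_add]
  congr 2
  apply Multiset.filter_congr
  intro x _
  simp

/-- **the equivalence, nonzero leading symbol** -/
theorem main_A {m : ℕ} {l : ℕ → ℝ} (hl : l (m + 2) ≠ 0) :
    Pres (m + 2) {m + 1} l ↔ (dg l (qq (m + 1))).Splits ∧
      (m + 1 ≤ ((dg l (qq (m + 1))).roots.filter (fun x => 0 ≤ x)).card ∨
       m + 1 ≤ ((dg l (qq (m + 1))).roots.filter (fun x => x ≤ 0)).card) := by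
  constructor
  · intro h
    have hs := h _ (qq_inW m) (qq_splits _)
    refine ⟨hs, ?_⟩
    have hdeg : (dg l (qq (m + 1))).natDegree = m + 2 := by
      apply le_antisymm
      · refine (natDegree_dg_le _ _).trans ?_
        rw [qq_natDegree]
      · apply le_natDegree_of_ne_zero
        rw [coeff_dg, qq_coeff_top]
        exact mul_ne_zero hl one_ne_zero
    have hcard : (dg l (qq (m + 1))).roots.card = m + 2 := by
      rw [← hdeg]; exact splits_iff_card_roots.1 hs
    have h1 := filter_card_split (dg l (qq (m + 1))).roots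
    have h2 := filter_card_split' (dg l (qq (m + 1))).roots
    rcases nec_A h with h3 | h3
    · left; omega
    · right; omega
  · rintro ⟨hs, h | h⟩
    · exact suff_A_pos hl hs h
    · exact suff_A_neg hl hs h

/-- **the equivalence, vanishing leading symbol** -/
theorem main_B {m : ℕ} {l : ℕ → ℝ} (hl : l (m + 2) = 0) :
    Pres (m + 2) {m + 1} l ↔ (dg l (qq (m + 1))).Splits ∧
      ((∀ x ∈ (dg l (qq (m + 1))).roots, 0 ≤ x) ∨
       (∀ x ∈ (dg l (qq (m + 1))).roots, x ≤ 0)) := by
  constructor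
  · intro h
    exact ⟨h _ (qq_inW m) (qq_splits _), nec_B h hl⟩
  · rintro ⟨hs, h | h⟩
    · exact suff_B_pos hl hs h
    · exact suff_B_neg hl hs h

end Pool.Agent.H47.RR
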